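import Pool.Agent.Q299.CF.DOM

/-!
# Project CF (helper7): the instance `IsDomain (BQ p r D)`
-/

set_option autoImplicit false

namespace Pool.Agent.Q7.CF

instance instDom (p r : ℕ) [Fact p.Prime] [Ok p r] {L : Type} [Field L] (D : L) : IsDomain (BQ p r D) :=
  Pool.Agent.Q299.CF.DOM.dom p r L D

end Pool.Agent.Q7.CF
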