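import Pool.Agent.Q7.CF.Dom
import Pool.Agent.Q7.CJ.Def2

/-!
# Project CF (helper7): the points of the Jacobians of the Fermat quotients over extensions, and their Tate-Shafarevich groups
-/

set_option autoImplicit false

namespace Pool.Agent.Q7.CF

open Polynomial IsDedekindDomain
open Pool.Agent.Q7.CJ (cmap IsClass GalF)

theorem bF_injective (p : ℕ) [Fact p.Prime] {L M : Type} [Field L] [Field M] (φ : L →+* M) (D : L) (D' : M)
    (h : φ D = D') : Function.Injective (bF p φ D D' h) := by
  rw [injective_iff_map_eq_zero]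
  intro b hb
  obtain ⟨g, rfl⟩ := AdjoinRoot.mk_surjective b
  have h1 : (fF p D).map (mapRingHom φ) = fF p D' := by
    unfold fF
    rw [Polynomial.map_sub, Polynomial.map_pow, map_X, map_C]
    simp only [coe_mapRingHom, Polynomial.map_sub, Polynomial.map_pow, map_X, map_C, h]
  have h2 : bF p φ D D' h (AdjoinRoot.mk (fF p D) g) = AdjoinRoot.mk (fF p D') (g.map (mapRingHom φ)) := by
    have h3 : (bF p φ D D' h).comp (AdjoinRoot.mk (fF p D)) =
        (AdjoinRoot.mk (fF p D')).comp (mapRingHom (mapRingHom φ)) := by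
      refine Polynomial.ringHom_ext (fun a => ?_) ?_
      · simp only [RingHom.comp_apply, AdjoinRoot.mk_C, coe_mapRingHom, map_C]
        exact bF_of p φ D D' h a
      · simp only [RingHom.comp_apply, AdjoinRoot.mk_X, coe_mapRingHom, map_X]
        exact bF_YF p φ D D' h
    exact RingHom.congr_fun h3 g
  rw [h2, AdjoinRoot.mk_eq_zero, ← h1] at hb
  have h3 := (Polynomial.modByMonic_eq_zero_iff_dvd ((fF_monic p D).map (mapRingHom φ))).2 hb
  rw [← Polynomial.map_modByMonic _ (fF_monic p D)] at h3
  have h4 : g %ₘ fF p D = 0 := by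
    refine (Polynomial.map_injective (mapRingHom φ) (Polynomial.map_injective φ φ.injective)) ?_
    rw [h3, Polynomial.map_zero]
  rw [AdjoinRoot.mk_eq_zero]
  exact (Polynomial.modByMonic_eq_zero_iff_dvd (fF_monic p D)).1 h4

theorem bc_injective (p r : ℕ) [Fact p.Prime] {L M : Type} [Field L] [Field M] (φ : L →+* M) (D : L) (D' : M)
    (h : φ D = D') : Function.Injective (bc p r φ D D' h) := by
  intro a b hab
  refine Subtype.ext (bF_injective p φ D D' h ?_)
  exact congrArg (fun z : BQ p r D' => (z : RF p D')) hab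

theorem sF_injective (p : ℕ) [Fact p.Prime] {L : Type} [Field L] (D ζ : L) (h : ζ ^ p = 1) :
    Function.Injective (sF p D ζ h) := by
  have hp := (Fact.out (p := p.Prime)).pos
  have hz : (ζ ^ (p - 1)) ^ p = 1 := by rw [← pow_mul, mul_comm, pow_mul, h, one_pow]
  have h1 : ∀ b, sF p D (ζ ^ (p - 1)) hz (sF p D ζ h b) = b := by
    intro b
    have h2 : ((sF p D (ζ ^ (p - 1)) hz).comp (sF p D ζ h)) = AlgHom.id L[X] (RF p D) := by
      refine AdjoinRoot.algHom_ext ?_
      change sF p D (ζ ^ (p - 1)) hz (sF p D ζ h (YF p D)) = YF p D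
      rw [sF_YF, map_mul, sF_YF]
      change sF p D (ζ ^ (p - 1)) hz (AdjoinRoot.of (fF p D) (C ζ)) * _ = _
      rw [sF_of, ← mul_assoc]
      change AdjoinRoot.of (fF p D) (C ζ) * AdjoinRoot.of (fF p D) (C (ζ ^ (p - 1))) * _ = _
      rw [← map_mul, ← C_mul, ← pow_succ', Nat.sub_add_cancel hp, h, map_one, map_one, one_mul]
    exact AlgHom.congr_fun h2 b
  exact Function.LeftInverse.injective h1

theorem sg_injective (p r : ℕ) [Fact p.Prime] {L : Type} [Field L] (D ζ : L) (h : ζ ^ p = 1) :
    Function.Injective (sg p r D ζ h) := by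
  intro a b hab
  refine Subtype.ext (sF_injective p D ζ h ?_)
  exact congrArg (fun z : BQ p r D => (z : RF p D)) hab

noncomputable section

/-- the points of the Jacobian of `C_r` over the extension `L` of `F` -/
def Jp (p r : ℕ) {F : Type} [Field F] (D : F) [Fact p.Prime] [Ok p r] (L : Type) [Field L] [Algebra F L] : Type :=
  ClassGroup (BQ p r (algebraMap F L D))

variable (p r : ℕ) [Fact p.Prime] [Ok p r] {F : Type} [Field F] (D : F)

/-- the group law -/
instance Jp.group (L : Type) [Field L] [Algebra F L] : AddCommGroup (Jp p r D L) :=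
  Additive.addCommGroup (α := ClassGroup (BQ p r (algebraMap F L D)))

/-- `P` is the class of the ideal `I` -/
def IsCls {L : Type} [Field L] [Algebra F L] (P : Jp p r D L) (I : Ideal (BQ p r (algebraMap F L D))) : Prop :=
  IsClass (R := BQ p r (algebraMap F L D)) P I

open Classical in
/-- the point `T`, the class of the ideal of the point `P_0` (`u = 0`) -/
def tT (L : Type) [Field L] [Algebra F L] : Jp p r D L :=
  if h : ∃ P : Jp p r D L, IsCls p r D P (t1 p r (algebraMap F L D)) then h.choose else 0

/-- the automorphism of the Jacobian given by `Y ↦ ζ Y` -/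
def om (ζ : F) (h : ζ ^ p = 1) (L : Type) [Field L] [Algebra F L] : Jp p r D L →+ Jp p r D L :=
  MonoidHom.toAdditive (cmap (sg p r (algebraMap F L D) (algebraMap F L ζ) (by rw [← map_pow, h, map_one]))
    (sg_injective p r (algebraMap F L D) (algebraMap F L ζ) (by rw [← map_pow, h, map_one])))

/-- the map on points given by a homomorphism of fields -/
def act {L M : Type} [Field L] [Algebra F L] [Field M] [Algebra F M] (φ : L →ₐ[F] M) : Jp p r D L →+ Jp p r D M :=
  MonoidHom.toAdditive (cmap (bc p r (φ : L →+* M) (algebraMap F L D) (algebraMap F M D) (φ.commutes D))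
    (bc_injective p r _ _ _ _))

/-- functions on the absolute Galois group with values in the points over the algebraic closure -/
def Coch : Type := GalF F → Jp p r D (AlgebraicClosure F)

instance Coch.group : AddCommGroup (Coch p r D) :=
  @Pi.addCommGroup (GalF F) (fun _ => Jp p r D (AlgebraicClosure F)) (fun _ => Jp.group p r D _)

/-- `f` is a continuous cocycle: `f (σ τ) = f σ + σ (f τ)` -/
def IsCoc (f : Coch p r D) : Prop :=
  IsLocallyConstant f ∧ ∀ σ τ : GalF F, f (σ * τ) = f σ + act p r D (σ : AlgebraicClosure F →ₐ[F] AlgebraicClosure F) (f τ)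

/-- `f` is a coboundary: `f σ = σ P - P` -/
def IsCob (f : Coch p r D) : Prop :=
  ∃ P : Jp p r D (AlgebraicClosure F), ∀ σ : GalF F, f σ = act p r D (σ : AlgebraicClosure F →ₐ[F] AlgebraicClosure F) P - P

/-- for every embedding of the algebraic closures the restriction of `f` to the absolute Galois group of `K ⊇ F` is a coboundary -/
def LocTriv (K : Type) [Field K] [Algebra F K] (f : Coch p r D) : Prop :=
  ∀ ι : AlgebraicClosure F →ₐ[F] AlgebraicClosure K, ∃ P : Jp p r D (AlgebraicClosure K),
    ∀ (τ : GalF K) (σ : GalF F), (∀ x, τ (ι x) = ι (σ x)) →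
      act p r D ι (f σ) = act p r D ((τ : AlgebraicClosure K →ₐ[K] AlgebraicClosure K).restrictScalars F) P - P

/-- the group of the coboundaries -/
def cob : AddSubgroup (Coch p r D) where
  carrier := {f | IsCob p r D f}
  zero_mem' := ⟨0, fun σ => by
    change (0 : Jp p r D (AlgebraicClosure F)) = _
    rw [map_zero, sub_zero]⟩
  add_mem' := by
    rintro f g ⟨P, hP⟩ ⟨Q, hQ⟩
    refine ⟨P + Q, fun σ => ?_⟩
    change f σ + g σ = _
    rw [hP, hQ, map_add]
    abel
  neg_mem' := by
    rintro f ⟨P, hP⟩
    refine ⟨-P, fun σ => ?_⟩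
    change -f σ = _
    rw [hP, map_neg]
    abel

section NF

variable [NumberField F]

/-- a continuous cocycle that is locally trivial at all the places of `F` -/
def IsShaCoc (f : Coch p r D) : Prop :=
  IsCoc p r D f ∧
  (∀ v : HeightOneSpectrum (NumberField.RingOfIntegers F), LocTriv p r D (v.adicCompletion F) f) ∧
  ∀ v : NumberField.InfinitePlace F, LocTriv p r D v.Completion f

omit [NumberField F] in
theorem loc_zero (K : Type) [Field K] [Algebra F K] : LocTriv p r D K 0 :=
  fun ι => ⟨0, fun τ σ _ => by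
    change act p r D ι 0 = _
    rw [map_zero, map_zero, sub_zero]⟩

omit [NumberField F] in
theorem loc_add {K : Type} [Field K] [Algebra F K] {f g : Coch p r D} (hf : LocTriv p r D K f) (hg : LocTriv p r D K g) :
    LocTriv p r D K (f + g) := by
  intro ι
  obtain ⟨P, hP⟩ := hf ι
  obtain ⟨Q, hQ⟩ := hg ι
  refine ⟨P + Q, fun τ σ h => ?_⟩
  change act p r D ι (f σ + g σ) = _
  rw [map_add, map_add, hP τ σ h, hQ τ σ h]
  abel

omit [NumberField F] in
theorem loc_neg {K : Type} [Field K] [Algebra F K] {f : Coch p r D} (hf : LocTriv p r D K f) : LocTriv p r D K (-f) := by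
  intro ι
  obtain ⟨P, hP⟩ := hf ι
  refine ⟨-P, fun τ σ h => ?_⟩
  change act p r D ι (-f σ) = _
  rw [map_neg, map_neg, hP τ σ h]
  abel

/-- the group of the continuous cocycles that are locally trivial at all the places of `F` -/
def shaCoc : AddSubgroup (Coch p r D) where
  carrier := {f | IsShaCoc p r D f}
  zero_mem' := ⟨⟨IsLocallyConstant.const _, fun σ τ => by
    change (0 : Jp p r D (AlgebraicClosure F)) = 0 + act p r D _ 0
    rw [map_zero, add_zero]⟩, fun _ => loc_zero p r D _, fun _ => loc_zero p r D _⟩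
  add_mem' := fun {f g} hf hg => ⟨⟨hf.1.1.add hg.1.1, fun σ τ => by
    change f (σ * τ) + g (σ * τ) = f σ + g σ + act p r D _ (f τ + g τ)
    rw [hf.1.2, hg.1.2, map_add]
    abel⟩, fun v => loc_add p r D (hf.2.1 v) (hg.2.1 v), fun v => loc_add p r D (hf.2.2 v) (hg.2.2 v)⟩
  neg_mem' := fun {f} hf => ⟨⟨hf.1.1.neg, fun σ τ => by
    change -f (σ * τ) = -f σ + act p r D _ (-f τ)
    rw [hf.1.2, map_neg]
    abel⟩, fun v => loc_neg p r D (hf.2.1 v), fun v => loc_neg p r D (hf.2.2 v)⟩

/-- the Tate-Shafarevich group of the Jacobian over `F` -/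
def Sha : Type := shaCoc p r D ⧸ (cob p r D).addSubgroupOf (shaCoc p r D)

/-- the group law on the Tate-Shafarevich group -/
instance Sha.group : AddCommGroup (Sha p r D) :=
  @QuotientAddGroup.Quotient.addCommGroup (shaCoc p r D) _ ((cob p r D).addSubgroupOf (shaCoc p r D))

end NF

end

end Pool.Agent.Q7.CF
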