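import Pool.Agent.Q7.CF.Stm
import Pool.Agent.Q7.CF.Def2
import Pool.Agent.Q7.CJ.Stm3

/-!
# Project CF (helper7), part 2: the `p`-primary part of the Tate-Shafarevich groups of the Jacobians of all Fermat quotients

The same as `Pool/Agent/Q7/CJ/Stm3.lean` (`r = 1`); the proofs are those of CJ with small changes (the author of the CJ proof has the first claim).
-/

set_option autoImplicit false

namespace Pool.Agent.Q7.CF

open Polynomial NumberField IsDedekindDomain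
open Pool.Agent.Q7.CJ (GalF)

/-- JOB LIM (uses `S_DED`, `S_BC`, `S_D5`, `S_D6`).  Adapt `Pool/Agent/Q129/CJ/LIM.lean`. -/
def S_LIM : Prop := ∀ (p r : ℕ) [Fact p.Prime] [Ok p r] (L : Type) [Field L] [CharZero L] (D : L), D ≠ 0 →
  ∀ (M : Type) [Field M] [Algebra L M] [IsAlgClosure L M] (D' : M) (hD : algebraMap L M D = D') (J : Ideal (BQ p r D')), J ≠ ⊥ →
    (∀ (τ : M ≃ₐ[L] M) (h : τ D' = D'), Sim (J.map (bc p r ((τ : M →ₐ[L] M) : M →+* M) D' D' h)) J) →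
    ∃ J₀ : Ideal (BQ p r D), J₀ ≠ ⊥ ∧ Sim (J₀.map (bc p r (algebraMap L M) D D' hD)) J

/-- JOB DIC (uses `S_DED`, `S_BC`).  The dictionary between the points `Jp` (class group) and ideals.  Adapt the CJ proof. -/
def S_DIC : Prop := ∀ (p r : ℕ) [Fact p.Prime] [Ok p r] (F : Type) [Field F] [CharZero F] (D : F), D ≠ 0 →
  ∀ (L : Type) [Field L] [Algebra F L],
  (∀ P : Jp p r D L, ∃ I : Ideal (BQ p r (algebraMap F L D)), IsCls p r D P I) ∧
  (∀ I : Ideal (BQ p r (algebraMap F L D)), I ≠ ⊥ → ∃ P : Jp p r D L, IsCls p r D P I) ∧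
  (∀ (P : Jp p r D L) (I : Ideal (BQ p r (algebraMap F L D))), IsCls p r D P I → I ≠ ⊥) ∧
  (∀ (P Q : Jp p r D L) (I J : Ideal (BQ p r (algebraMap F L D))), IsCls p r D P I → IsCls p r D Q J →
    (P = Q ↔ Sim I J) ∧ IsCls p r D (P + Q) (I * J)) ∧
  IsCls p r D (0 : Jp p r D L) ⊤ ∧ IsCls p r D (tT p r D L) (t1 p r (algebraMap F L D)) ∧
  (∀ (ζ : F) (h : ζ ^ p = 1) (h' : (algebraMap F L ζ) ^ p = 1) (P : Jp p r D L) (I : Ideal (BQ p r (algebraMap F L D))),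
    IsCls p r D P I → IsCls p r D (om p r D ζ h L P) (I.map (sg p r (algebraMap F L D) (algebraMap F L ζ) h'))) ∧
  ∀ (M : Type) [Field M] [Algebra F M] (φ : L →ₐ[F] M) (P : Jp p r D L) (I : Ideal (BQ p r (algebraMap F L D))),
    IsCls p r D P I → IsCls p r D (act p r D φ P) (I.map (bc p r (φ : L →+* M) (algebraMap F L D) (algebraMap F M D) (φ.commutes D)))

/-- JOB FUN (uses `S_DIC`).  Functoriality.  Adapt the CJ proof. -/
def S_FUN : Prop := ∀ (p r : ℕ) [Fact p.Prime] [Ok p r] (F : Type) [Field F] [CharZero F] (D : F), D ≠ 0 →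
  ∀ (L M N : Type) [Field L] [Algebra F L] [Field M] [Algebra F M] [Field N] [Algebra F N] (φ : L →ₐ[F] M) (ψ : M →ₐ[F] N),
  (∀ P : Jp p r D L, act p r D (AlgHom.id F L) P = P) ∧
  (∀ P : Jp p r D L, act p r D (ψ.comp φ) P = act p r D ψ (act p r D φ P)) ∧
  (act p r D φ (tT p r D L) = tT p r D M) ∧
  ∀ (ζ : F) (h : ζ ^ p = 1), om p r D ζ h L (tT p r D L) = tT p r D L ∧
    ∀ P : Jp p r D L, act p r D φ (om p r D ζ h L P) = om p r D ζ h M (act p r D φ P)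

/-- JOB STR (uses `S_DED`, `S_NMM`, `S_NI`, `S_AMB`, `S_CLOS`, `S_D4H`, `S_DIC`, `S_FUN`).  The structure of the points as a `ℤ[ζ]`-module.  Adapt the CJ proof. -/
def S_STR : Prop := ∀ (p r : ℕ) [Fact p.Prime] [Ok p r] (F : Type) [Field F] [CharZero F] (ζ : F) (hζ : ζ ^ p = 1), IsPrimitiveRoot ζ p →
  ∀ D : F, D ≠ 0 → ∀ (L : Type) [Field L] [Algebra F L],
  (∀ P : Jp p r D L, ∑ i ∈ Finset.range p, (om p r D ζ hζ L)^[i] P = 0) ∧
  p • tT p r D L = 0 ∧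
  (∀ P : Jp p r D L, om p r D ζ hζ L P = P → ∃ j : ℕ, P = j • tT p r D L) ∧
  (IsAlgClosed L → ∀ P : Jp p r D L, ∃ Q : Jp p r D L, Q - om p r D ζ hζ L Q = P) ∧
  (∀ j : ℕ, j • tT p r D L = 0 → p ∣ j) ∧
  ∃ n : ℕ → ℤ, ∀ P : Jp p r D L,
    (fun Q : Jp p r D L => Q - om p r D ζ hζ L Q)^[p - 1] P = p • ∑ i ∈ Finset.range p, n i • (om p r D ζ hζ L)^[i] P

/-- JOB LST (uses `S_DED`, `S_NMM`, `S_MV`, `S_BC`, `S_D4H`, `S_LIM`, `S_DIC`, `S_FUN`, `S_STR`).  The local step.  Adapt `Pool/Agent/Q164/CJ/Lst.lean`.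
Proof.  As in CJ: `P = R - σ R` is the class of an ideal `I` over `K`, `ρ^p = nm(I)^(r+1) ν^p`, `ρ = ζ^(r² k) τ(ρ)` with `k = h(σ)`.  So `β = ι(α)^(r²) ρ ∈ K`, `β^p = a^(r²) nm(I)^(r+1) ν^p`, and `a` is a power of `nm I` times a `p`-th power. -/
def S_LST : Prop := ∀ (p r : ℕ) [Fact p.Prime] [Ok p r] (F : Type) [Field F] [CharZero F] (ζ : F), IsPrimitiveRoot ζ p →
  ∀ D : F, D ≠ 0 → ∀ (α : AlgebraicClosure F) (a : F) (h : GalF F → ℕ), a ≠ 0 → α ^ p = algebraMap F (AlgebraicClosure F) a →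
  (∀ τ : GalF F, τ α = algebraMap F (AlgebraicClosure F) ζ ^ h τ * α) →
  ∀ (K : Type) [Field K] [Algebra F K] (ι : AlgebraicClosure F →ₐ[F] AlgebraicClosure K) (R : Jp p r D (AlgebraicClosure K)),
    (∀ (τ : GalF K) (σ : GalF F), (∀ x, τ (ι x) = ι (σ x)) →
      h σ • tT p r D (AlgebraicClosure K) =
        act p r D ((τ : AlgebraicClosure K →ₐ[K] AlgebraicClosure K).restrictScalars F) R - R) →
    Cj p r (algebraMap F K D) (algebraMap F K a)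

/-- JOB GST (uses `S_DED`, `S_NMM`, `S_BC`, `S_D4H`, `S_DIC`, `S_FUN`, `S_STR`).  The global step.  Adapt `Pool/Agent/Q211/CJ/GST.lean`.
Proof.  As in CJ with `I = t2^m`, `nm I = D^m`, `m (r + 1) ≡ j r²` modulo `p`: `(α^(r²) ρ)^p = a^(r²) D^(m (r+1)) ν^p` is a `p`-th power in `F`, so `α^(r²) ρ ∈ F`, `ζ^(r² h(τ)) = ζ^(r² k)`. -/
def S_GST : Prop := ∀ (p r : ℕ) [Fact p.Prime] [Ok p r] (F : Type) [Field F] [CharZero F] (ζ : F), IsPrimitiveRoot ζ p →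
  ∀ D : F, D ≠ 0 → ∀ (α : AlgebraicClosure F) (a : F) (h : GalF F → ℕ), a ≠ 0 → α ^ p = algebraMap F (AlgebraicClosure F) a →
  (∀ τ : GalF F, τ α = algebraMap F (AlgebraicClosure F) ζ ^ h τ * α) →
  ∀ j : ℕ, (∃ c : F, a * D ^ j = c ^ p) →
    ∃ R : Jp p r D (AlgebraicClosure F), ∀ σ : GalF F,
      h σ • tT p r D (AlgebraicClosure F) = act p r D (σ : AlgebraicClosure F →ₐ[F] AlgebraicClosure F) R - R

/-- JOB SHA (uses `S_FUN`, `S_STR`, `CJ.S_KUM`, `S_LST`, `S_GST`, `S_FCOND`).  Adapt the CJ proof of helper53. -/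
def S_SHA : Prop := ∀ (p r : ℕ) [Fact p.Prime] [Ok p r] (F : Type) [Field F] [NumberField F] (ζ : F), IsPrimitiveRoot ζ p →
  ∀ D : F, D ≠ 0 → ¬ Pool.Agent.Q7.LK.Bad p (AF (F := F) p r) D → ∀ x : Sha p r D, p • x = 0 → x = 0

end Pool.Agent.Q7.CF
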