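import Pool.Agent.Q7.CJ.Main
import Pool.Agent.Q7.CF.Stm3

/-!
# Project CF (helper7): assembly
-/

set_option autoImplicit false

namespace Pool.Agent.Q7.CF

open NumberField IsDedekindDomain Filter Topology Finset
open Pool.Agent.Q283.LQ (Sm Box Nest nS)
open Pool.Agent.Q7.LK
open Pool.Agent.Q7.CE (S_ESUM)
open Pool.Agent.Q7.CJ (Share)

/-- the share of the `D` which are not bad -/
theorem gshare (hshare : S_SHARE) (hsum : S_ESUM) (p : ℕ) [hp : Fact p.Prime] (h2 : p ≠ 2)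
    (F : Type) [Field F] [NumberField F] (ζ : F) (hζ : IsPrimitiveRoot ζ p)
    (A : HeightOneSpectrum (𝓞 F) → F → F → Prop) (hA : Loc p A (fun v => dv p v / 2)) (P : F → Prop)
    (hP : ∀ D, D ≠ 0 → ¬ Bad p A D → P D) : Share p F P := by
  obtain ⟨y0, hy0⟩ := hshare p h2 F ζ hζ
  refine ⟨y0, fun y hy D0 hD0 ε hε => ?_⟩
  obtain ⟨k0, hk0⟩ := hy0 y hy A (fun v => dv p v / 2) hA D0 hD0 ε hε
  refine ⟨k0, fun k hk z hz => nest_mono k _ _ (fun X hX => ?_) (hk0 k hk z hz)⟩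
  obtain ⟨hfin, hpos, hN⟩ := hX
  refine ⟨hfin, hpos, ?_⟩
  set T : Set (Fin k → HeightOneSpectrum (𝓞 F)) :=
    {q ∈ (Box y X : Set (Fin k → HeightOneSpectrum (𝓞 F))) | ∃ D, Fits p y D0 z q D} with hT
  set G : Set (Fin k → HeightOneSpectrum (𝓞 F)) :=
    {q ∈ (Box y X : Set (Fin k → HeightOneSpectrum (𝓞 F))) | (∃ D, Fits p y D0 z q D) ∧
      ∀ D, Fits p y D0 z q D → P D} with hG
  set B : Set (Fin k → HeightOneSpectrum (𝓞 F)) :=
    {q ∈ (Box y X : Set (Fin k → HeightOneSpectrum (𝓞 F))) | ∃ D, Fits p y D0 z q D ∧ Bad p A D} with hB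
  have hcov : T ⊆ G ∪ B := by
    intro q hq
    by_cases hg : q ∈ G
    · exact Or.inl hg
    · right
      rw [hG] at hg
      simp only [Set.mem_ofPred_eq, not_and, not_forall] at hg
      obtain ⟨D, hD, hns⟩ := hg hq.1 hq.2
      refine ⟨hq.1, D, hD, ?_⟩
      by_contra hbad
      exact hns (hP D hD.ne hbad)
  have hGf : G.Finite := hfin.subset fun q hq => hq.1
  have hBf : B.Finite := hfin.subset fun q hq => hq.1
  have h3 : (T.ncard : ℝ) ≤ G.ncard + B.ncard := by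
    exact_mod_cast le_trans (Set.ncard_le_ncard hcov (hGf.union hBf)) (Set.ncard_union_le G B)
  have hp1 : (0 : ℝ) < (p : ℝ) - 1 := by
    have : (1 : ℝ) < p := by exact_mod_cast hp.out.one_lt
    linarith
  have h4 : ((p : ℝ) ^ (∑ᶠ v : HeightOneSpectrum (𝓞 F), dv p v / 2) *
      (1 / (p : ℝ)) ^ InfinitePlace.nrComplexPlaces F / ((p : ℝ) - 1) + ε) ≤ 1 / ((p : ℝ) - 1) + ε := by
    have h4 := Pool.Agent.Q7.CJ.mu_le hsum p h2 F ζ hζ
    have h5 := div_le_div_of_nonneg_right h4 hp1.le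
    linarith
  have h6 : (B.ncard : ℝ) ≤ (1 / ((p : ℝ) - 1) + ε) * T.ncard := by
    refine le_trans hN (mul_le_mul_of_nonneg_right ?_ (by positivity))
    exact h4
  linarith

/-- the first main theorem -/
def S_MAIN1 : Prop := ∀ (p r : ℕ) [Fact p.Prime] [Ok p r] (F : Type) [Field F] [NumberField F] (ζ : F), IsPrimitiveRoot ζ p →
  Share p F fun D => TrivF p r D ∧ ∀ x : Sha p r D, p • x = 0 → x = 0

theorem ok_ne_two (p r : ℕ) [h : Ok p r] : p ≠ 2 := by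
  have h1 := h.h1
  have h2 := h.h2
  omega

theorem main1 (hshare : S_SHARE) (hsum : S_ESUM) (hloc : S_FLOC) (htri : S_FTRI) (hsha : S_SHA) : S_MAIN1 := by
  intro p r _ _ F _ _ ζ hζ
  exact gshare hshare hsum p (ok_ne_two p r) F ζ hζ (AF (F := F) p r) (hloc p r F ζ hζ) _
    (fun D hD hb => ⟨htri p r F ζ hζ D hD hb, hsha p r F ζ hζ D hD hb⟩)

/-- the second main theorem -/
def S_MAIN2 : Prop := ∀ (p : ℕ) [Fact p.Prime], p ≠ 2 → ∀ (F : Type) [Field F] [NumberField F] (ζ : F), IsPrimitiveRoot ζ p →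
  ∃ y0 : ℕ, ∀ y, y0 ≤ y → ∀ D0 : F, D0 ≠ 0 → ∀ ε : ℝ, 0 < ε →
  ∃ k0 : ℕ, ∀ k, k0 ≤ k → ∀ z : Fin k → ZMod p, (∀ i, z i ≠ 0) → Nest k fun X =>
    (Box y X : Set (Fin k → HeightOneSpectrum (𝓞 F))).Finite ∧
    0 < ({q ∈ (Box y X : Set (Fin k → HeightOneSpectrum (𝓞 F))) | ∃ D, Fits p y D0 z q D}.ncard : ℝ) ∧
    (1 / 2 - ε) *
        ({q ∈ (Box y X : Set (Fin k → HeightOneSpectrum (𝓞 F))) | ∃ D, Fits p y D0 z q D}.ncard : ℝ) ≤
      ({q ∈ (Box y X : Set (Fin k → HeightOneSpectrum (𝓞 F))) | (∃ D, Fits p y D0 z q D) ∧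
        ∀ D, Fits p y D0 z q D → TrivR p D ∧
          ∀ (r : ℕ) [Ok p r], TrivF p r D ∧ ∀ x : Sha p r D, p • x = 0 → x = 0}.ncard : ℝ)

theorem main2 (huni : S_UNI) (hfer : S_FER) (htri : S_FTRI) (hsha : S_SHA) : S_MAIN2 := by
  intro p _ h2 F _ _ ζ hζ
  obtain ⟨y0, hy0⟩ := huni p h2 F ζ hζ
  refine ⟨y0, fun y hy D0 hD0 ε hε => ?_⟩
  obtain ⟨k0, hk0⟩ := hy0 y hy D0 hD0 ε hε
  refine ⟨k0, fun k hk z hz => nest_mono k _ _ (fun X hX => ?_) (hk0 k hk z hz)⟩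
  obtain ⟨hfin, hpos, hN⟩ := hX
  refine ⟨hfin, hpos, le_trans hN ?_⟩
  have hsub : {q ∈ (Box y X : Set (Fin k → HeightOneSpectrum (𝓞 F))) | (∃ D, Fits p y D0 z q D) ∧
        ∀ D, Fits p y D0 z q D → ∀ r : ℕ, Ok p r → ¬ Bad p (AF (F := F) p r) D} ⊆
      {q ∈ (Box y X : Set (Fin k → HeightOneSpectrum (𝓞 F))) | (∃ D, Fits p y D0 z q D) ∧
        ∀ D, Fits p y D0 z q D → TrivR p D ∧
          ∀ (r : ℕ) [Ok p r], TrivF p r D ∧ ∀ x : Sha p r D, p • x = 0 → x = 0} := by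
    rintro q ⟨hq, hd, h⟩
    refine ⟨hq, hd, fun D hD => ⟨hfer p h2 F ζ hζ D hD.ne fun r hr => ?_, fun r hr => ?_⟩⟩
    · haveI := hr
      exact htri p r F ζ hζ D hD.ne (h D hD r hr)
    · exact ⟨htri p r F ζ hζ D hD.ne (h D hD r hr), hsha p r F ζ hζ D hD.ne (h D hD r hr)⟩
  exact_mod_cast Set.ncard_le_ncard hsub (hfin.subset fun q hq => hq.1)

end Pool.Agent.Q7.CF
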