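import Pool.Agent.Q283.EN.Stm
import Pool.Agent.Q7.CF.Main

/-!
# Project CF (helper7), part 4: the exact law (project EN of helper283) as a bound for the Selmer groups; ranks

`S_LAWX` (project EN, proved) is the law of the number of the classes with local conditions given by MAXIMAL isotropic local groups.  Every isotropic group is contained in a maximal isotropic one (`S_LW2`); the conditions become weaker, so the law of EN
bounds the numbers of classes of CF from above (`S_LW5`): at most `p^(r+1)` classes for a share of at least `al p 0 + .. + al p r - ε` of the `D`, and the mean of the `m` (`p^(m+1)` classes) is at most `rho p + ε`.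
-/

set_option autoImplicit false

namespace Pool.Agent.Q7.CF

open NumberField IsDedekindDomain Filter Topology Finset
open Pool.Agent.Q283.LQ (Sm Box Nest nS)
open Pool.Agent.Q7.LK
open Pool.Agent.Q283.EN (al S_LAWX P_BASE P_LOC)

/-- the mean of the law `al p` -/
noncomputable def rho (p : ℕ) : ℝ := ∑' r : ℕ, (r : ℝ) * al p r

section F

variable {F : Type} [Field F] [NumberField F]

/-- the `q` to which some `D` belongs -/
def Ens (p y : ℕ) (D0 : F) {k : ℕ} (z : Fin k → ZMod p) (X : Fin k → ℕ) : Set (Fin k → HeightOneSpectrum (𝓞 F)) :=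
  {q ∈ (Box y X : Set (Fin k → HeightOneSpectrum (𝓞 F))) | ∃ D, Fits p y D0 z q D}

/-- there are at most `N` classes modulo `p`-th powers with the local conditions belonging to `D` -/
def AtMost (p : ℕ) (A : HeightOneSpectrum (𝓞 F) → F → F → Prop) (D : F) (N : ℕ) : Prop :=
  ∀ B : Finset F, (∀ b ∈ B, Cond p A D b) → (∀ b ∈ B, ∀ b' ∈ B, b ≠ b' → ¬ IsPow p (b / b')) → B.card ≤ N

/-- there are at least `N` classes modulo `p`-th powers with the local conditions belonging to `D` -/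
def AtLeast (p : ℕ) (A : HeightOneSpectrum (𝓞 F) → F → F → Prop) (D : F) (N : ℕ) : Prop :=
  ∃ B : Finset F, N ≤ B.card ∧ (∀ b ∈ B, Cond p A D b) ∧ ∀ b ∈ B, ∀ b' ∈ B, b ≠ b' → ¬ IsPow p (b / b')

/-- the local conditions at a place outside `p` -/
def Aout (p : ℕ) (v : HeightOneSpectrum (𝓞 F)) (D0 a : F) : Prop :=
  a ≠ 0 ∧ (vl p v D0 = 0 → vl p v a = 0) ∧ (vl p v D0 ≠ 0 → ∃ j : ℕ, Lpw p v (a * D0 ^ j))

end F

/-- JOB LW1 (uses `LK.S_BAS`; only elementary).  The number of the local classes from below (`LK.S_LOCV` is the bound from above).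
Proof.  `e` the ramification index of `v`, `N v = p^f`, `dv = e f`.  `M` large (`M ≥ 4 e + 4`), `G = (𝓞 F / v^M)ˣ`, finite, `#(G / G^p) = #G[p]`, and `G[p]` contains the classes of `ζ^i (1 + x)`, `x ∈ v^(M - e)`, `0 ≤ i < p`: `p (N v)^e = p^(1 + dv)` elements (`ζ^i - ζ^j` has the order `e/(p-1) < M - e`).
Representatives in `F` of the classes of `G / G^p`, multiplied by `π^j`, `0 ≤ j < p`, `π` of order `1`: if the quotient of two is `Lpw p v` then the orders agree modulo `p` and the quotient of the units is a `p`-th power modulo `v^M`. -/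
def S_LW1 : Prop := ∀ (p : ℕ) [Fact p.Prime], p ≠ 2 → ∀ (F : Type) [Field F] [NumberField F] (ζ : F), IsPrimitiveRoot ζ p →
  ∀ v : HeightOneSpectrum (𝓞 F), Dp p v → ∃ B : Finset F, p ^ (2 + dv p v) ≤ B.card ∧ (∀ b ∈ B, b ≠ 0) ∧
    ∀ b ∈ B, ∀ b' ∈ B, b ≠ b' → ¬ Lpw p v (b / b')

/-- JOB LW2 (uses `LK.S_BAS`, `LK.S_LOCV`, `S_LW1`).  Maximal isotropic groups.
Proof.  `V` = the group of the classes of `F^*` modulo `Lpw p v`, an elementary abelian `p`-group, finite (`S_LOCV`), with at least `p^(2 + dv)` elements (`S_LW1`); `t v` is bimultiplicative on `V` (`Hilb`) and alternating (`t v a a = - t v a a`, `p` odd).  `A'` maximal among the isotropic groups containing `A`.  If `x` is orthogonal to `A'` then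
`A'` and `x` generate an isotropic group, so `x ∈ A'`.  So `x ↦ t v x ·` is an injection of `V / A'` into `Hom(A', F_p)`: `#V ≤ (#A')²`; `#A'` is a power of `p`, so `#A' ≥ p^(dv / 2 + 1)`. -/
def S_LW2 : Prop := ∀ (p : ℕ) [Fact p.Prime], p ≠ 2 → ∀ (F : Type) [Field F] [NumberField F] (ζ : F), IsPrimitiveRoot ζ p →
  ∀ t : HeightOneSpectrum (𝓞 F) → F → F → ZMod p, Hilb p ζ t → ∀ v : HeightOneSpectrum (𝓞 F), Dp p v → ∀ A : F → Prop,
  (∀ a, A a → a ≠ 0) → (∀ a b, A a → A b → A (a * b)) → (∀ b, Lpw p v b → A b) → (∀ a b, A a → A b → t v a b = 0) →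
  ∃ A' : F → Prop, (∀ a, A a → A' a) ∧ (∀ a, A' a → a ≠ 0) ∧ (∀ a b, A' a → A' b → A' (a * b)) ∧ (∀ b, Lpw p v b → A' b) ∧
    (∀ a b, A' a → A' b → t v a b = 0) ∧
    ∃ B : Finset F, p ^ (dv p v / 2 + 1) ≤ B.card ∧ (∀ b ∈ B, A' b) ∧ ∀ b ∈ B, ∀ b' ∈ B, b ≠ b' → ¬ Lpw p v (b / b')

/-- JOB LW3 (uses `LK.S_BAS`).  The places outside `p`.
Proof.  `vl v D0 = 0`: the classes are those of the units, `t v a b = 0` by `Hilb.unr` (`vl v a = 0`, `vl v b = 0`), and there is a unit with `sy v u ≠ 0`: the powers of `u` are `p` classes.  `vl v D0 ≠ 0`: the powers of `D0`, `p` classes, `t v D0 D0 = 0` (`t v D0 D0 = - t v D0 D0`, `p` odd). -/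
def S_LW3 : Prop := ∀ (p : ℕ) [Fact p.Prime], p ≠ 2 → ∀ (F : Type) [Field F] [NumberField F] (ζ : F), IsPrimitiveRoot ζ p →
  ∀ t : HeightOneSpectrum (𝓞 F) → F → F → ZMod p, Hilb p ζ t → ∀ v : HeightOneSpectrum (𝓞 F), ¬ Dp p v → ∀ D0 : F, D0 ≠ 0 →
  (∀ a b, Aout p v D0 a → Aout p v D0 b → Aout p v D0 (a * b)) ∧ (∀ b, Lpw p v b → Aout p v D0 b) ∧
  (∀ a b, Aout p v D0 a → Aout p v D0 b → t v a b = 0) ∧ Aout p v D0 D0 ∧
  ∃ B : Finset F, p ≤ B.card ∧ (∀ b ∈ B, Aout p v D0 b) ∧ ∀ b ∈ B, ∀ b' ∈ B, b ≠ b' → ¬ Lpw p v (b / b')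

/-- The sum of the local degrees from below (`CE.S_ESUM` is the inequality `≤`).  The second clause of `EN.S_VAL`, proved by helper190. -/
def S_LW4 : Prop := ∀ (p : ℕ) [Fact p.Prime], p ≠ 2 → ∀ (F : Type) [Field F] [NumberField F] (ζ : F),
  IsPrimitiveRoot ζ p → InfinitePlace.nrComplexPlaces F ≤ ∑ᶠ v : HeightOneSpectrum (𝓞 F), dv p v / 2

/-- JOB LW5 (uses `EN.S_LAWX` with `P_BASE`, `P_LOC` (`LK.S_BASE`, `LK.S_LOC`), `LK.S_BAS`, `S_LW2`, `S_LW3`, `S_LW4`; uniqueness: `EN.S_UNQ`, `Pool.Agent.Q190.EN.unq`).  The law as a bound.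
Proof.  For `v ∣ p` let `A'_v ⊇ {a | A v D0 a}` by `S_LW2` (`D0 ∈ A'_v` by `1 ∈ A v D0` and `Loc.clo`), for the other `v` with `Sm y v` let `A'_v = Aout p v D0` (`S_LW3`), `c v = dv p v / 2` (`y ≥ p`, so that all `v ∣ p` are small): `LocX p t y A' c`.  `S_LAWX`.
For a fitting `D` `Cond p A D a` implies `CondX p y A' D a`: at `v ∣ p` `A v D a` gives `A v D0 a` (`Loc.inv`, `Lpw p v (D / D0)`); at small `v ∤ p` compare `D`, `D0`; the other places are not small.  So `#classes (Cond) ≤ #classes (CondX)`; `CondX` is the same for two fitting `D`, `D'` (`D / D'` is a `p`-th power, `EN.S_UNQ`).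
(1) The `q` with `HasN (CondX) (p^(i+1))`, `i ≤ r`, are disjoint for different `i`, with the shares `≥ al p i - ε'`.
(2) For `q ∈ B` the number `N q` of the classes (`CondX`) is finite (`CondX a` implies that `a` is a monomial in the `u l`, `π (q i)` up to a `p`-th power, `Base.full`; or `S_SSX`) and a power of `p` (the classes form a group killed by `p`), and `p^(m q + 1) ≤ N q`, so `m q ≤ r(q)`, `N q = p^(r(q) + 1)`.
`∑ m q ≤ ∑_(r ≤ R') r #{r(q) = r} + ∑_(r(q) > R') r(q)`, the first sum is at most `∑_(r ≤ R') r (al p r + ε') #Ens`, the second at most `(R' + 1) / p^(R' + 2) ∑ N q ≤ (R' + 1) / p^(R' + 2) (2 + ε) p #Ens` (`r / p^(r+1)` decreases for `r ≥ 1`).  `R'` large. -/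
def S_LW5 : Prop := S_LAWX → ∀ (p : ℕ) [Fact p.Prime], p ≠ 2 → ∀ (F : Type) [Field F] [NumberField F] (ζ : F), IsPrimitiveRoot ζ p →
  P_BASE p F ζ → P_LOC p F →
  ∀ t : HeightOneSpectrum (𝓞 F) → F → F → ZMod p, Hilb p ζ t → ∃ y0 : ℕ, ∀ y, y0 ≤ y →
  ∀ A : HeightOneSpectrum (𝓞 F) → F → F → Prop, Loc p A (fun v => dv p v / 2) →
  (∀ v D, Dp p v → D ≠ 0 → A v D 1) → (∀ v D a b, Dp p v → D ≠ 0 → A v D a → A v D b → A v D (a * b)) →
  (∀ v D a b, Dp p v → D ≠ 0 → A v D a → A v D b → t v a b = 0) →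
  ∀ D0 : F, D0 ≠ 0 → ∀ (R : ℕ) (ε : ℝ), 0 < ε →
  ∃ k0 : ℕ, 1 ≤ k0 ∧ ∀ k, k0 ≤ k → ∀ z : Fin k → ZMod p, (∀ i, z i ≠ 0) → Nest k fun X =>
    (Box y X : Set (Fin k → HeightOneSpectrum (𝓞 F))).Finite ∧
    0 < ((Ens p y D0 z X).ncard : ℝ) ∧
    (∀ r ≤ R, (∑ i ∈ range (r + 1), al p i - ε) * ((Ens p y D0 z X).ncard : ℝ) ≤
      ({q ∈ Ens p y D0 z X | ∀ D, Fits p y D0 z q D → AtMost p A D (p ^ (r + 1))}.ncard : ℝ)) ∧
    ∀ (B : Finset (Fin k → HeightOneSpectrum (𝓞 F))) (m : (Fin k → HeightOneSpectrum (𝓞 F)) → ℕ),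
      (∀ q ∈ B, q ∈ Ens p y D0 z X) →
      (∀ q ∈ B, ∃ D, Fits p y D0 z q D ∧ AtLeast p A D (p ^ (m q + 1))) →
      ∑ q ∈ B, (m q : ℝ) ≤ (rho p + ε) * ((Ens p y D0 z X).ncard : ℝ)

/-- JOB LW6 (uses `LK.S_BAS`, `LK.S_CPL`, `LK.S_NRM`; `S_NMM`, `S_MV`, `S_ORTH`).  The local groups `AF` contain `1`, are closed under multiplication and isotropic.
Proof.  `nm ⊤ = 1`; `nm (I J) = nm I nm J`; isotropy: `S_ORTH`, `LK.S_NRM` (template: the proof of `S_FLOC`, see `Pool/Agent/Q211/CJ/JLOC.lean`). -/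
def S_LW6 : Prop := ∀ (p r : ℕ) [Fact p.Prime] [Ok p r] (F : Type) [Field F] [NumberField F] (ζ : F), IsPrimitiveRoot ζ p →
  ∀ t : HeightOneSpectrum (𝓞 F) → F → F → ZMod p, Hilb p ζ t →
  (∀ (v : HeightOneSpectrum (𝓞 F)) (D : F), Dp p v → D ≠ 0 → AF p r v D 1) ∧
  (∀ (v : HeightOneSpectrum (𝓞 F)) (D a b : F), Dp p v → D ≠ 0 → AF p r v D a → AF p r v D b → AF p r v D (a * b)) ∧
  (∀ (v : HeightOneSpectrum (𝓞 F)) (D a b : F), Dp p v → D ≠ 0 → AF p r v D a → AF p r v D b → t v a b = 0)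

/-- JOB LW8 (only Mathlib, `EN.S_SYML`).  The constants: `1 - (p - 1)/2 (1 - α_p) > 1/2`; the mean.
Proof.  `1 - α_p ≤ 1/p + 1/p³ + 1/p⁵ + .. = p/(p² - 1)` (`∏ (1 - x_i) ≥ 1 - ∑ x_i`), so `(p - 1)/2 (1 - α_p) ≤ p/(2 (p + 1)) < 1/2`.  `∑_(r ≤ R) al p r ≤ 1` (limit of the proportions of a partition, `S_SYML`); `(p - 1) al p 1 = al p 0`, `(p - 1) r al p r = r (p - 1)/(p^r - 1) al p (r - 1) ≤ al p (r - 1) / 2` for `r ≥ 2`,
so `(p - 1) rho p ≤ al p 0 + (1 - al p 0) / 2`, and `al p 0 < 1` (`≤ 1 - 1/p`); summability by comparison. -/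
def S_LW8 : Prop := ∀ (p : ℕ) [Fact p.Prime], p ≠ 2 →
  ((p : ℝ) - 1) / 2 * (1 - al p 0) ≤ (p : ℝ) / (2 * (p + 1)) ∧ 0 ≤ rho p ∧ ((p : ℝ) - 1) * rho p ≤ 1 - 1 / (2 * p)

/-! ## Ranks -/

/-- JOB RK1 (only Mathlib).  The rank and the index of `1 - σ`.
Proof.  `A' = A / torsion`, free of rank `n`, a module over `ℤ[X] / (1 + X + .. + X^(p-1)) = ℤ[ζ]`; `1 - σ` is injective on `A'`; `p = u (1 - ζ)^(p-1)`, `u` a unit of `ℤ[ζ]`, so `p^n = #(A' / p A') = #(A' / (1 - σ) A')^(p-1)`, `#(A' / (1 - σ) A')` is a power of `p` (it is killed by `p ∈ (1 - σ)`), `p^m`, `n = (p - 1) m`.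
`A / (1 - σ) A` is finite, killed by `p`, maps onto `A' / (1 - σ) A'`, and the class of the torsion element `t` is a nontrivial element of the kernel: `#(A / (1 - σ) A) ≥ p^(m + 1)`. -/
def S_RK1 : Prop := ∀ (p : ℕ) [Fact p.Prime] (A : Type) [CommGroup A], Group.FG A → ∀ σ : A →* A,
  (∀ a, ∏ i ∈ Finset.range p, (σ^[i]) a = 1) → ∀ t : A, IsOfFinOrder t → (∀ c, t ≠ c / σ c) →
  ∃ m : ℕ, Module.finrank ℤ (Additive A) = (p - 1) * m ∧ ∃ B : Finset A, p ^ (m + 1) ≤ B.card ∧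
    ∀ b ∈ B, ∀ b' ∈ B, b ≠ b' → ∀ c, b / b' ≠ c / σ c

/-- JOB RK2 (uses `S_DED`, `S_NMM`, `S_MV`, `S_BC`, `S_NI`, `S_INJ`, `S_FCOND`, `S_RK1`; template: the proof of `S_FTRI`, `Pool/Agent/Q211/CJ/JTRI.lean`).  The rank of the Jacobian.
Proof.  `A` = class group, `σ` induced by `sg`, `∏ σ^i = 1` (`S_NI`), `t` = the class of `t2`: `t2^p = (w)`; if `t2 ∼ I (σI)^(-1)` then `nm t2 = D` would be a `p`-th power (`S_MV`: choose `I` prime to `t1`; `nm (σI) = nm I`).  `S_RK1`; the map `I ↦ nm I` (`I` prime to `t1`) is injective modulo `(1 - σ)` and `p`-th powers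
(`S_INJ`), and its values satisfy `Cond` (`S_FCOND`, `S_BC`). -/
def S_RK2 : Prop := ∀ (p r : ℕ) [Fact p.Prime] [Ok p r] (F : Type) [Field F] [NumberField F] (ζ : F), IsPrimitiveRoot ζ p →
  ∀ D : F, D ≠ 0 → ¬ IsPow p D → ∀ _ : IsDedekindDomain (BQ p r D), Group.FG (ClassGroup (BQ p r D)) →
  ∃ m : ℕ, Module.finrank ℤ (Additive (ClassGroup (BQ p r D))) = (p - 1) * m ∧ AtLeast p (AF (F := F) p r) D (p ^ (m + 1))

/-- JOB RK3 (uses `S_BSC`, `S_DED`, `S_FNR`; template: the proof of `S_FER`, `Pool/Agent/Q285/CF/FER.lean`).  The rank of the Jacobian of the Fermat curve is at most the sum of those of the quotients.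
Proof.  With `R = RF p D`, `Bᵣ = BQ p r D`: the homomorphism `∏_r Cl(Bᵣ) → Cl(R)` (extension of ideals) has an image containing `p Cl(R)` (`I^p ∼ ∏_r (I_r R)`, see the proof of `S_FER`), so the rank of `Cl(R)` is at most `∑_r rank Cl(Bᵣ)`. -/
def S_RK3 : Prop := ∀ (p : ℕ) [Fact p.Prime], p ≠ 2 → ∀ (F : Type) [Field F] [NumberField F] (ζ : F), IsPrimitiveRoot ζ p →
  ∀ D : F, D ≠ 0 → ∀ (_ : IsDedekindDomain (RF p D)) (_ : ∀ r : ℕ, IsDomain (BQ p r D)), Group.FG (ClassGroup (RF p D)) →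
  (∀ r : ℕ, Ok p r → Group.FG (ClassGroup (BQ p r D))) →
  Module.finrank ℤ (Additive (ClassGroup (RF p D))) ≤
    ∑ r ∈ Finset.Icc 1 (p - 2), Module.finrank ℤ (Additive (ClassGroup (BQ p r D)))

end Pool.Agent.Q7.CF
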