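import Pool.Agent.Q7.CF.Def
import Pool.Agent.Q7.CJ.Def
import Pool.Agent.Q7.LK.Stm2

/-!
# Project CF (helper7): the Jacobians of the twisted Fermat curves `X^p + Y^p = D` and of their quotients, over number fields containing `μ_p`

This is project CJ (`r = 1`, the curves `y² + D y = x^p`) for all the quotients `C_r : v^p = u (D - u)^r`, `1 ≤ r ≤ p - 2`, of the Fermat curve.  The proofs are those of CJ with small changes; the
statements have the same names.  Dictionary CJ → CF: `BR p D` → `BQ p r D` (a subring of `RF p D = L[X, Y] / (X^p + Y^p - D)`), `y` → `-u` (`uu = X^p`), `y + D` → `w = D - u` (`ww = Y^p`), `x` → `v = X Y^r` (`vv`),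
`L[y]` → `L[u]` (`aeval (uu p r D) g`, `g ∈ L[X]`), basis `x^i` → `v_i = X^i Y^(r i mod p)`, `σ x = ζ x` → `σ : Y ↦ ζ Y`, `σ v_i = ζ^(r i) v_i`, `t1` = `P_0`, `t2` = `P_D`, `t1 t2 = (x)` → `t1 t2^r = (v)`, `t1^p = (u)`, `t2^p = (w)`.

GOAL 1 (`S_SHARE` of LK).  For every `r` and a share of at least `1 - 1/(p-1) - ε` of the `D` of every family: `J_(r, D)(F) = ⟨T⟩ + p J_(r, D)(F)`.
GOAL 2.  For a share of at least `1/2 - ε` of the `D` this is true for all `r` together, and so `p A = p² A` for the class group `A` of `RF p D` (`S_FER`): the Jacobian of the twisted Fermat curve has rank `0`.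
-/

set_option autoImplicit false

namespace Pool.Agent.Q7.CF

open Polynomial NumberField IsDedekindDomain
open Pool.Agent.Q7.CJ (Nr)

/-! ## Symbols -/

/-- JOB RTG (uses `CJ.S_RS`).  The general form of `CJ.S_RT` (there `s = -1`).  Adapt `Pool/Agent/Q198/CJ/RT.lean`.
Proof.  `t ≥ 1` with `s t ≡ 1` modulo `p`.  By `S_RS` `Nr ((b^s / c)^t) (a^s / c)`, and there are operators `A₁, B₁` on `V₁ = K^p` with `A₁^p = a/c`, `B₁^p = b/c`, and `A₂, B₂` on `V₂ = K^p` with `A₂^p = (b^s/c)^t` (`= b / c^t` up to a `p`-th power), `B₂^p = a^s/c`, `B_i A_i = ζ A_i B_i`.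
On `W = V₁ ⊗ V₂` (dimension `p²`) let `M(x, y, z, w) = A₁^x B₁^y ⊗ A₂^z B₂^w`.  `M(g)^p = a^(x + s w) b^(y + z) c^(-(x + y + t z + w))` up to `p`-th powers, `M(g') M(g) = ζ^ω(g, g') M(g) M(g')`, `ω(g, g') = x y' - x' y + z w' - z' w`.
`Q = M(-s, s, -s, 1)`: `Q^p = κ^p`, `κ ∈ K^*`, and `ω(g, Q) = s (x + y + t z + w)`.  So the eigenspaces `W_j` of `Q` (eigenvalues `κ ζ^j`) are permuted transitively by `M(1, 0, 0, 0)` (`ω = s ≠ 0`), so `dim W_0 = p`.  `A = M(1, y, -y, 0)`, `y (t - 1) ≡ 1`, and `B = M(0, y', z', 0)`,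
`z' = -1/(t-1)`, `y' = t/(t-1)`, commute with `Q`; `A^p = a`, `B^p = b` up to `p`-th powers, `ω(A, B) = t/(t-1) ≠ 0` modulo `p`.  The key lemma clause of `S_RS` on `W_0`. -/
def S_RTG : Prop := ∀ (p : ℕ) [Fact p.Prime], p ≠ 2 → ∀ (K : Type) [Field K] [CharZero K] (ζ : K), IsPrimitiveRoot ζ p →
  ∀ (s : ℕ) (a b c : K), ¬ p ∣ s → ¬ s ≡ 1 [MOD p] → a ≠ 0 → b ≠ 0 → c ≠ 0 →
    Nr p (a / c) (b / c) → Nr p (b ^ s / c) (a ^ s / c) → Nr p a b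

/-- JOB RPG (uses `CJ.S_RS`, `S_RTG`).  Two points of the curve `v^p = u (D - u)^r` are orthogonal.  Adapt `Pool/Agent/Q198/CJ/RPT.lean`.
Proof.  `s ≥ 1` with `s r ≡ -1` modulo `p`, `s ≢ 0, 1`.  If `u ≠ D`, `w = D - u`: `w^r = v^p / u`, so `w = u^s` up to `p`-th powers.  `Nr u D`: if `u = D` clear.  Otherwise `Nr (u/D) (w/D)` (`S_RS`, `u/D + w/D = 1`), so `Nr (u/D) (u^s/D)`, with `Nr (u/D) ((u/D)^(-s))`: `Nr (u/D) (D^(s-1))`, so `Nr (u/D) D`, `Nr D (u/D)`,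
`Nr D u`.  `Nr u₁ u₂`: clear if `u₁ = u₂`, or if some `u_i = D`.  Otherwise `c = u₁ - u₂`: `Nr (u₁/c) (- u₂/c)`, `Nr (u₁/c) (u₂/c)`; `c = w₂ - w₁`: `Nr (w₂/c) (- w₁/c)`, so `Nr (u₂^s/c) (u₁^s/c)`.  `S_RTG`. -/
def S_RPG : Prop := ∀ (p r : ℕ) [Fact p.Prime] [Ok p r] (K : Type) [Field K] [CharZero K] (ζ : K), IsPrimitiveRoot ζ p →
  ∀ D u₁ v₁ u₂ v₂ : K, D ≠ 0 → u₁ ≠ 0 → u₂ ≠ 0 → v₁ ^ p = u₁ * (D - u₁) ^ r → v₂ ^ p = u₂ * (D - u₂) ^ r →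
    Nr p u₁ u₂ ∧ Nr p u₁ D ∧ Nr p D u₁

/-! ## The coordinate ring and its ideals -/

/-- JOB DOM (only Mathlib).  `BQ` is a domain, for every field and every `D`.  Needed as an instance for the definitions of part 2.
Proof.  `RF` has the `L`-basis `X^a Y^b`, `b < p`; `BQ` has the `L`-basis `X^a Y^(r a mod p)`; the degrees `a + (r a mod p)` are different (modulo `p` they are `(1 + r) a`; if `a ≡ a'` modulo `p` and the degrees are equal then `a = a'`).  The part of highest degree of a product is the product of the parts of highest degree, computed in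
`L[X, Y] / (X^p + Y^p)`, which has the homomorphism `X ↦ t, Y ↦ -t` to `L[t]`: it is not zero. -/
def S_DOM : Prop := ∀ (p r : ℕ) [Fact p.Prime] [Ok p r] (L : Type) [Field L] (D : L), IsDomain (BQ p r D)

/-- JOB BSC (only Mathlib).  The basis, the retraction, the two points.  `v_i = X^i Y^(r i mod p)`.
Proof.  `RF` has the basis `Y^b`, `b < p`, over `L[X]` (`AdjoinRoot.powerBasis'`), so the basis `X^a Y^b` over `L`; `BQ` is spanned by the monomials with `b ≡ r a`; multiplication by a monomial permutes the residue classes of `b - r a`.  `e1`: the composition `BQ → RF → L[Y]/(Y^p - D)`, `X ↦ 0`, has values in `L` (monomials with `a = 0` have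
`p ∣ b`); `e2`: `Y ↦ 0`. -/
def S_BSC : Prop := ∀ (p r : ℕ) [Fact p.Prime] [Ok p r] (L : Type) [Field L] (D : L),
  (∀ (a b : ℕ) (h : b ≡ r * a [MOD p]), ∃ (i k l : ℕ), i < p ∧
    (⟨XF p D ^ a * YF p D ^ b, mons_mem p r D h⟩ : BQ p r D) =
      ⟨XF p D ^ i * YF p D ^ (r * i % p), mons_mem p r D (Nat.mod_modEq _ _)⟩ * uu p r D ^ k * ww p r D ^ l) ∧
  (∀ z : BQ p r D, ∃! f : Fin p → L[X], z = ∑ i : Fin p, aeval (uu p r D) (f i) *
    ⟨XF p D ^ (i : ℕ) * YF p D ^ (r * (i : ℕ) % p), mons_mem p r D (Nat.mod_modEq _ _)⟩) ∧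
  (∃ ρ : RF p D →ₗ[BQ p r D] BQ p r D, ∀ z : BQ p r D, ρ (z : RF p D) = z) ∧
  (∃ e : BQ p r D →ₐ[L] L, RingHom.ker e = t1 p r D ∧ e (uu p r D) = 0 ∧ e (ww p r D) = D ∧ e (vv p r D) = 0) ∧
  (∃ e : BQ p r D →ₐ[L] L, RingHom.ker e = t2 p r D ∧ e (uu p r D) = D ∧ e (ww p r D) = 0 ∧ e (vv p r D) = 0)

/-- JOB DED.  `RF` and `BQ` are Dedekind domains, their proper quotients are finite-dimensional.  Adapt `Pool/Agent/Q231/CJ/DED.lean`.
Proof.  `RF`: `Y^p = D - X^p` with `D - X^p` squarefree (`D ≠ 0`), as in CJ.  `BQ`: finite over `L[u]`, so noetherian of dimension `1`; integrally closed: an integral element `b / c` of the field of fractions, `b, c ∈ BQ`, is in `RF`: `z ∈ RF` with `c z = b`; with the `BQ`-linear retraction `ρ : RF → BQ` (`S_BSC`) `c ρ(z) = ρ(c z) = ρ(b) = b = c z`, so `z = ρ(z) ∈ BQ`. -/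
def S_DED : Prop := ∀ (p r : ℕ) [Fact p.Prime] [Ok p r] (L : Type) [Field L] [CharZero L] (D : L), D ≠ 0 →
  IsDedekindDomain (BQ p r D) ∧ (∀ I : Ideal (BQ p r D), I ≠ ⊥ → FiniteDimensional L (BQ p r D ⧸ I)) ∧
  IsDedekindDomain (RF p D) ∧ ∀ I : Ideal (RF p D), I ≠ ⊥ → FiniteDimensional L (RF p D ⧸ I)

/-- JOB NMM (uses `S_BSC`, `S_DED`).  The values of `u` and `D - u` at ideals, and the points `P_0`, `P_D`.  Adapt `Pool/Agent/Q296/CJ/NMM.lean`.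
Proof.  As in CJ.  `t1 t2^r = (v)`, `t1^p = (u)`, `t2^p = (w)`: `u` and `w` are coprime (`u + w = D`), `v^p = u w^r`; `t1` is the only maximal ideal containing `u` (a maximal ideal containing `u = X^p` contains all `v_i`, `i ≥ 1`, as `v_i^p = u^i w^(r i mod p)`), and in the factorization the exponents are compared (`v^p = u w^r`, `1 ≤ r < p`; `v_i` with
`r i ≡ 1` shows that `t2` occurs in some `v_i` to the power `1`).  The last clause: `ν` = norm of `v`. -/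
def S_NMM : Prop := ∀ (p r : ℕ) [Fact p.Prime] [Ok p r] (L : Type) [Field L] [CharZero L] (D : L), D ≠ 0 →
  (∀ I J : Ideal (BQ p r D), I ≠ ⊥ → J ≠ ⊥ → nm p r D (I * J) = nm p r D I * nm p r D J ∧
    nw p r D (I * J) = nw p r D I * nw p r D J) ∧ nm p r D ⊤ = 1 ∧ nw p r D ⊤ = 1 ∧
  (∀ I : Ideal (BQ p r D), I ≠ ⊥ → (nm p r D I = 0 ↔ I ≤ t1 p r D) ∧ (nw p r D I = 0 ↔ I ≤ t2 p r D)) ∧
  nm p r D (t2 p r D) = D ∧ nw p r D (t1 p r D) = D ∧ (t1 p r D).IsMaximal ∧ (t2 p r D).IsMaximal ∧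
  t1 p r D ≠ ⊥ ∧ t2 p r D ≠ ⊥ ∧ t1 p r D ≠ t2 p r D ∧
  t1 p r D * t2 p r D ^ r = Ideal.span {vv p r D} ∧ t1 p r D ^ p = Ideal.span {uu p r D} ∧
  t2 p r D ^ p = Ideal.span {ww p r D} ∧
  ∀ I : Ideal (BQ p r D), I ≠ ⊥ → ∃ ν : L, nm p r D I * nw p r D I ^ r = ν ^ p

/-- JOB NMP (uses `S_BSC`).  Principal ideals.  Adapt `Pool/Agent/Q223/CJ/NMP.lean`.
Proof.  `ν = N_(BQ/L[u])(f) ∈ L[u]`, `ν(0) = f(P_0)^p` (multiplication by `f` on `BQ / u BQ` has the only eigenvalue `f(P_0)`), `nm (f) = ± ν(0) / lc(ν)`, and `lc(ν)` is, up to sign, a `p`-th power: the term of largest degree `γ u^m v_i` of `f` (degree of `X^a Y^b` = `a + b`) has the norm `γ^p u^(p m) v_i^p = γ^p u^(p m + i) w^(r i mod p)`. -/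
def S_NMP : Prop := ∀ (p r : ℕ) [Fact p.Prime] [Ok p r] (L : Type) [Field L] [CharZero L] (D : L), D ≠ 0 →
  ∀ f : BQ p r D, f ∉ t1 p r D → ∃ s : L, s ≠ 0 ∧ nm p r D (Ideal.span {f}) = s ^ p

/-- JOB MV (uses `S_DED`, `S_NMM`, `S_NMP`).  Adapt `Pool/Agent/Q123/CJ/MV.lean`. -/
def S_MV : Prop := ∀ (p r : ℕ) [Fact p.Prime] [Ok p r] (L : Type) [Field L] [CharZero L] (D : L), D ≠ 0 →
  (∀ I : Ideal (BQ p r D), I ≠ ⊥ → ∃ J : Ideal (BQ p r D), J ≠ ⊥ ∧ Sim I J ∧ ¬ J ≤ t1 p r D ∧ ¬ J ≤ t2 p r D) ∧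
  ∀ I J : Ideal (BQ p r D), I ≠ ⊥ → J ≠ ⊥ → Sim I J → nm p r D I ≠ 0 → nm p r D J ≠ 0 →
    ∃ s : L, s ≠ 0 ∧ nm p r D I = nm p r D J * s ^ p

/-- JOB BC (uses `S_BSC`, `S_DED`).  Adapt `Pool/Agent/Q123/CJ/BC.lean`.  (`BQ` over `M` is the extension of scalars of `BQ` over `L`: same basis `X^a Y^(r a mod p)`.) -/
def S_BC : Prop := ∀ (p r : ℕ) [Fact p.Prime] [Ok p r] (L M : Type) [Field L] [CharZero L] [Field M] (φ : L →+* M) (D : L) (D' : M)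
  (h : φ D = D'), D ≠ 0 → Function.Injective (bc p r φ D D' h) ∧ ∀ I : Ideal (BQ p r D), I ≠ ⊥ →
    I.map (bc p r φ D D' h) ≠ ⊥ ∧ nm p r D' (I.map (bc p r φ D D' h)) = φ (nm p r D I)

/-- JOB NI (uses `S_BSC`, `S_DED`).  The norm of an ideal.  Adapt `Pool/Agent/Q241/CJ/NI.lean`.  `g` = the characteristic polynomial of `u` on `BQ / I`. -/
def S_NI : Prop := ∀ (p r : ℕ) [Fact p.Prime] [Ok p r] (L : Type) [Field L] [CharZero L] (ζ : L) (hζ : ζ ^ p = 1),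
  IsPrimitiveRoot ζ p → ∀ D : L, D ≠ 0 → ∀ I : Ideal (BQ p r D), I ≠ ⊥ → ∃ g : L[X], g.Monic ∧
    ∏ i ∈ Finset.range p, I.map (sgi p r D ζ hζ i) = Ideal.span {aeval (uu p r D) g} ∧
    nm p r D I = (-1) ^ g.natDegree * g.eval 0 ∧ nw p r D I = g.eval D

/-- JOB H90 (uses `S_DED`).  Adapt `Pool/Agent/Q231/CJ/H90.lean`. -/
def S_H90 : Prop := ∀ (p r : ℕ) [Fact p.Prime] [Ok p r] (L : Type) [Field L] [CharZero L] (ζ : L) (hζ : ζ ^ p = 1),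
  IsPrimitiveRoot ζ p → ∀ D : L, D ≠ 0 → ∀ I J : Ideal (BQ p r D), I ≠ ⊥ → J ≠ ⊥ →
  ∏ i ∈ Finset.range p, I.map (sgi p r D ζ hζ i) = ∏ i ∈ Finset.range p, J.map (sgi p r D ζ hζ i) →
  ∃ K : Ideal (BQ p r D), K ≠ ⊥ ∧ I * K.map (sg p r D ζ hζ) = J * K

/-- JOB AMB (uses `S_BSC`, `S_DED`, `S_NMM`, `S_MV`).  Ambiguous classes.  Adapt the CJ proof of helper132.
Proof.  As in CJ; the units of `BQ` are constants (leading terms, as in `S_DOM`); an ideal fixed by `σ` is a product of powers of `t1`, `t2` and of ideals extended from `L[u]`; `t2^r ∼ t1^(-1)`, `t1^p ∼ 1`, `t2^p ∼ 1`, so `t2 ∼ t1^j`. -/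
def S_AMB : Prop := ∀ (p r : ℕ) [Fact p.Prime] [Ok p r] (L : Type) [Field L] [CharZero L] (ζ : L) (hζ : ζ ^ p = 1),
  IsPrimitiveRoot ζ p → ∀ D : L, D ≠ 0 → ∀ I : Ideal (BQ p r D), I ≠ ⊥ → Sim (I.map (sg p r D ζ hζ)) I →
  ∃ j : ℕ, Sim I (t1 p r D ^ j)

/-! ## The kernel of the class map -/

/-- JOB CLOS (uses `CJ.S_RS`, `S_BSC`, `S_DED`, `S_MV`, `S_BC`, `S_NI`, `S_H90`).  Adapt `Pool/Agent/Q164/CJ/Clos2.lean`.
Proof.  As in CJ, with `s_i^p = u_i`, `t_i^p = D - u_i` for the zeros `u_i` of `g`: over `R = M(u)`: `Nr u (u - u_i)`, `Nr (D - u) (u - u_i)`, so `Nr (u (D - u)^r) g`, and `R[X] / (X^p - u (D - u)^r)` is the field of fractions of `BQ` over `M`. -/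
def S_CLOS : Prop := ∀ (p r : ℕ) [Fact p.Prime] [Ok p r] (L : Type) [Field L] [CharZero L] (ζ : L), IsPrimitiveRoot ζ p →
  ∀ D : L, D ≠ 0 → ∀ I : Ideal (BQ p r D), I ≠ ⊥ → ∃ (M : Type) (_ : Field M) (_ : Algebra L M), FiniteDimensional L M ∧ IsGalois L M ∧
    ∀ h : (algebraMap L M ζ) ^ p = 1, ∃ J : Ideal (BQ p r (algebraMap L M D)), J ≠ ⊥ ∧
      Sim (I.map (bc p r (algebraMap L M) D _ rfl) * J.map (sg p r (algebraMap L M D) (algebraMap L M ζ) h)) J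

/-- the action of an automorphism of `M` over `L` on the coordinate ring over `M` -/
noncomputable def ga (p r : ℕ) {L M : Type} [Field L] [Field M] [Algebra L M] (D : L) (τ : M ≃ₐ[L] M) :
    BQ p r (algebraMap L M D) →+* BQ p r (algebraMap L M D) :=
  bc p r ((τ : M →ₐ[L] M) : M →+* M) (algebraMap L M D) (algebraMap L M D) (τ.commutes D)

/-- JOB D4H (uses `S_BSC`, `S_DED`, `S_NMM`, `S_MV`, `S_BC`, `S_NI`, `S_AMB`).  Adapt the CJ proof (`S_D4G` / `CJ.S_D4H`, helpers 153, 68).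
Proof.  As in CJ.  `I σJ = f J`, `∏ σ^i f = m g(u)`, values at `P_0`, `P_D`: `f(P_0)^p = m g(0)`, `f(P_D)^p = m g(D)`; `ρ₀ = f(P_0) / f(P_D)`; `nm I = ± g(0)`, `nw I = g(D)`, `nm nw^r = ν^p` (`S_NMM`), so `ρ = ± ρ₀^r` satisfies `ρ^p = nm^(r+1) ν'^p`.  `τJ = J t1^k w`: `w = v^(-k) w₁` at `P_0`, `σ v = ζ^r v`,
so `ρ₀ = ζ^(r k) τ(ρ₀)`, `ρ = ζ^(r² k) τ(ρ)`.  (If `I` is replaced by a similar ideal then `nm I` changes by a `p`-th power of an element of `L`.) -/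
def S_D4H : Prop := ∀ (p r : ℕ) [Fact p.Prime] [Ok p r] (L : Type) [Field L] [CharZero L] (ζ : L), IsPrimitiveRoot ζ p →
  ∀ D : L, D ≠ 0 → ∀ I : Ideal (BQ p r D), I ≠ ⊥ → nm p r D I ≠ 0 →
  ∀ (M : Type) [Field M] (i : L →+* M) (D' : M) (hD : i D = D') (h : (i ζ) ^ p = 1) (J : Ideal (BQ p r D')), J ≠ ⊥ →
    Sim (I.map (bc p r i D D' hD) * J.map (sg p r D' (i ζ) h)) J →
    ∃ ρ : M, ρ ≠ 0 ∧ (∃ ν : L, ν ≠ 0 ∧ ρ ^ p = i (nm p r D I ^ (r + 1) * ν ^ p)) ∧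
      ∀ (τ : M →+* M), Function.Bijective τ → (∀ x, τ (i x) = i x) → ∀ hτ : τ D' = D',
        (∃ k : ℕ, Sim (J.map (bc p r τ D' D' hτ)) (J * t1 p r D' ^ k)) ∧
        ∀ k : ℕ, Sim (J.map (bc p r τ D' D' hτ)) (J * t1 p r D' ^ k) → ρ = i ζ ^ (r ^ 2 * k) * τ ρ

/-- JOB D5 (uses `S_BSC`, `S_DED`, `S_NMM`, `S_MV`).  Adapt `Pool/Agent/Q132/CJ/D5.lean`. -/
def S_D5 : Prop := ∀ (p r : ℕ) [Fact p.Prime] [Ok p r] (L : Type) [Field L] [CharZero L] (D : L), D ≠ 0 →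
  ∀ (M : Type) [Field M] [Algebra L M] [FiniteDimensional L M] [IsGalois L M] (J : Ideal (BQ p r (algebraMap L M D))), J ≠ ⊥ →
    (∀ τ : M ≃ₐ[L] M, Sim (J.map (ga p r D τ)) J) →
    ∃ J₀ : Ideal (BQ p r D), J₀ ≠ ⊥ ∧ Sim (J₀.map (bc p r (algebraMap L M) D _ rfl)) J

/-- JOB D6 (uses `S_BSC`, `S_DED`).  Adapt `Pool/Agent/Q224/CJ/D6.lean`. -/
def S_D6 : Prop := ∀ (p r : ℕ) [Fact p.Prime] [Ok p r] (L : Type) [Field L] [CharZero L] (D : L), D ≠ 0 →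
  ∀ (M : Type) [Field M] [Algebra L M] [FiniteDimensional L M] [IsGalois L M] (I I' : Ideal (BQ p r D)), I ≠ ⊥ → I' ≠ ⊥ →
    Sim (I.map (bc p r (algebraMap L M) D _ rfl)) (I'.map (bc p r (algebraMap L M) D _ rfl)) → Sim I I'

/-- JOB INJ (uses `S_DED`, `S_NMM`, `S_MV`, `S_BC`, `S_CLOS`, `S_D4H`, `S_D5`, `S_D6`).  Adapt `Pool/Agent/Q224/CJ/INJ.lean`.
Proof.  `S_CLOS`: `I_M σJ ∼ J`.  `S_D4H` for `i : L → M`: `ρ^p = s^(p (r+1)) ν^p`, so `ρ ∈ L` (`ζ ∈ L`), `τ(ρ) = ρ`; `τJ ∼ J t1^k`, `ζ^(r² k) = 1`, `p ∣ k`, `t1^k = (u^(k/p))`, so `τJ ∼ J`.  `S_D5`, `S_D6`. -/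
def S_INJ : Prop := ∀ (p r : ℕ) [Fact p.Prime] [Ok p r] (L : Type) [Field L] [CharZero L] (ζ : L) (hζ : ζ ^ p = 1),
  IsPrimitiveRoot ζ p → ∀ D : L, D ≠ 0 → ∀ I : Ideal (BQ p r D), I ≠ ⊥ → ∀ s : L, s ≠ 0 → nm p r D I = s ^ p →
  ∃ J : Ideal (BQ p r D), J ≠ ⊥ ∧ Sim (I * J.map (sg p r D ζ hζ)) J

/-! ## Orthogonality and the local conditions -/

/-- JOB ORTH (uses `CJ.S_RS`, `CJ.S_RP`, `S_RPG`, `S_DED`, `S_NMM`, `S_BC`).  Adapt `Pool/Agent/Q211/CJ/ORTH.lean`.  (`K₁ = BQ / P` with `u₁, v₁` the classes of `u`, `v`: a point of the curve.) -/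
def S_ORTH : Prop := ∀ (p r : ℕ) [Fact p.Prime] [Ok p r] (K : Type) [Field K] [CharZero K] (ζ : K), IsPrimitiveRoot ζ p →
  ∀ D a b : K, D ≠ 0 → Cj p r D a → Cj p r D b → Nr p a b

/-- JOB SYM (uses `S_BSC`, `S_DED`, `S_NMM`).  The curves `C_r` and `C_(1/r)` are isomorphic.
Proof.  The automorphism `X ↔ Y` of `RF` (over `L`) maps `BQ p r` onto `BQ p r'` (`b ≡ r a ↔ a ≡ r' b`) and `u` to `w`.  `I ↦ I'`: `nw' I' = nm I = a s^p`, and `nm' I' (nw' I')^(r') = ν^p` (`S_NMM`), so `nm' I' = a^(-r')` up to `p`-th powers; take the power `I'^n`, `n ≥ 1`, `r' n ≡ -1` modulo `p`. -/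
def S_SYM : Prop := ∀ (p r r' : ℕ) [Fact p.Prime] [Ok p r] [Ok p r'], r * r' ≡ 1 [MOD p] →
  ∀ (L : Type) [Field L] [CharZero L] (D a : L), D ≠ 0 → Cj p r D a → Cj p r' D a

section F

variable {F : Type} [Field F] [NumberField F]

/-- the local conditions: `a` is the class of a point of the Jacobian over the completion of `F` at `v` -/
def AF (p r : ℕ) (v : HeightOneSpectrum (𝓞 F)) (D a : F) : Prop :=
  Cj p r (D : v.adicCompletion F) (a : v.adicCompletion F)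

/-- every element of the Jacobian over `F` is the sum of a multiple of `T` and the `p`-fold of an element -/
def TrivF (p r : ℕ) (D : F) : Prop :=
  ∀ I : Ideal (BQ p r D), I ≠ ⊥ → ∃ (i : ℕ) (J : Ideal (BQ p r D)), J ≠ ⊥ ∧ Sim I (t1 p r D ^ i * J ^ p)

end F

open Pool.Agent.Q7.LK in
/-- JOB TAME (uses `S_DED`, `S_NMM`; `S_BAS` for `vl`).  Adapt `Pool/Agent/Q224/CJ/TAME.lean`.
Proof.  `K₁ = BQ / P`, `v^p = u (D - u)^r`; `w(u) + r w(D - u) = p w(v)`.  `w(u) < w(D)`: `(1 + r) w(u) ≡ 0`.  `w(u) > w(D)`: `w(D - u) = w(D) ≡ 0`, so `w(u) ≡ 0`.  `w(u) = w(D)`: clear.  (`u = D`: clear.) -/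
def S_TAME : Prop := ∀ (p r : ℕ) [Fact p.Prime] [Ok p r] (F : Type) [Field F] [NumberField F] (v : HeightOneSpectrum (𝓞 F))
  (D a : F), D ≠ 0 → vl p v D = 0 → AF p r v D a → vl p v a = 0

open Pool.Agent.Q7.LK in
/-- JOB FLOC (uses `S_BAS`, `S_CPL`, `S_NRM`, `S_HS2`, `CE.S_ISO`; `S_BSC`, `S_DED`, `S_NMM`, `S_ORTH`).  Adapt `Pool/Agent/Q211/CJ/JLOC.lean`.
Proof.  `inv`: `n = ν^p`: the isomorphism `BQ (D) → BQ (D n)` induced by `X ↦ X / ν`, `Y ↦ Y / ν` (or its inverse).  `clo`: multiply the ideal by `t2`, `nm t2 = D`. -/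
def S_FLOC : Prop := ∀ (p r : ℕ) [Fact p.Prime] [Ok p r] (F : Type) [Field F] [NumberField F] (ζ : F), IsPrimitiveRoot ζ p →
  Loc p (AF (F := F) p r) (fun v => dv p v / 2)

open Pool.Agent.Q7.LK in
/-- JOB FCOND (uses `S_BAS`, `S_CPL`, `S_NRM`, `S_HS2`; `S_NMM`, `S_ORTH`, `S_TAME`).  Adapt `Pool/Agent/Q224/CJ/JCOND.lean`. -/
def S_FCOND : Prop := ∀ (p r : ℕ) [Fact p.Prime] [Ok p r] (F : Type) [Field F] [NumberField F] (ζ : F), IsPrimitiveRoot ζ p →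
  ∀ D a : F, D ≠ 0 → (∀ v : HeightOneSpectrum (𝓞 F), AF p r v D a) → Cond p (AF (F := F) p r) D a

open Pool.Agent.Q7.LK in
/-- JOB FTRI (uses `S_DED`, `S_NMM`, `S_MV`, `S_BC`, `S_NI`, `S_INJ`, `S_FCOND`).  Adapt `Pool/Agent/Q211/CJ/JTRI.lean`.  (`nm t2 = D`; `t2 ∼ t1^j`: `t1 t2^r = (v)`, `t1^p = (u)`, `t2^p = (w)`.) -/
def S_FTRI : Prop := ∀ (p r : ℕ) [Fact p.Prime] [Ok p r] (F : Type) [Field F] [NumberField F] (ζ : F), IsPrimitiveRoot ζ p →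
  ∀ D : F, D ≠ 0 → ¬ Bad p (AF (F := F) p r) D → TrivF p r D

/-! ## The Fermat curve -/

/-- the automorphism `X ↦ ζ^i X`, `Y ↦ ζ^j Y` of the Fermat curve -/
def IsAct (p : ℕ) {L : Type} [Field L] (D ζ : L) (i j : ℕ) (f : RF p D →+* RF p D) : Prop :=
  (∀ c : L, f (algebraMap L (RF p D) c) = algebraMap L (RF p D) c) ∧
  f (XF p D) = algebraMap L (RF p D) (ζ ^ i) * XF p D ∧ f (YF p D) = algebraMap L (RF p D) (ζ ^ j) * YF p D

/-- JOB FNR (uses `S_BSC`, `S_DED`).  The norms to the quotient curves.  `H_r = {(ζ^i, ζ^j) : i + r j ≡ 0}` is the group of `RF / BQ p r`.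
Proof.  `∏_(h ∈ H_r) h(I)` is the extension of the norm of `I` to `BQ p r` (`RF / BQ` is Galois with the group `H_r`; general theorem: for a Galois extension of Dedekind domains the extension of `Ideal.relNorm I` is the product of the conjugates; compare `Pool/Agent/Q241/CJ/NI*.lean`).  (Or: `H_r` acts freely on the maximal ideals ... of the algebraic closure, so an
`H_r`-stable ideal `I'` is `(I' ∩ BQ) RF`.)  Second clause: `RF / L[X]`, the norm to `L[X]` is principal.  Third: `i + r j ≡ 0` with `r = p - 1`, that is `i = j`: the ring of the invariants is spanned by the `X^a Y^b`, `p ∣ a + b`; with `t = X / Y` it is the ring of the functions on the `t`-line with poles only in `t^p = -1`, and `t = -1` is rational over `L`: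
in `t' = 1 / (t + 1) = Y / (X + Y)` it is a localization of `L[t']`, so principal.  (`X + Y` is a unit of `RF`: `(X + Y) ∏_(i ≥ 1) (X + ζ^i Y) = D`; `t' ∈ RF`; `RF` is generated over `L[t']`, localized, by `(X + Y)^(±1)`, whose `p`-th power is `D / ((1 - t')^p + t'^p)`: a Kummer extension of a localization of `L[t']` generated by a unit.) -/
def S_FNR : Prop := ∀ (p : ℕ) [Fact p.Prime], p ≠ 2 → ∀ (L : Type) [Field L] [CharZero L] (ζ : L), IsPrimitiveRoot ζ p →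
  ∀ D : L, D ≠ 0 → ∀ (f : ℕ → ℕ → (RF p D →+* RF p D)), (∀ i j, IsAct p D ζ i j (f i j)) → ∀ I : Ideal (RF p D), I ≠ ⊥ →
  (∀ r : ℕ, Ok p r → ∃ I₀ : Ideal (BQ p r D), I₀ ≠ ⊥ ∧
    ∏ j ∈ Finset.range p, I.map (f ((p - r) * j) j) = I₀.map ((BQ p r D).val : BQ p r D →+* RF p D)) ∧
  (∃ b : RF p D, b ≠ 0 ∧ ∏ j ∈ Finset.range p, I.map (f 0 j) = Ideal.span {b}) ∧
  (∃ b : RF p D, b ≠ 0 ∧ ∏ j ∈ Finset.range p, I.map (f j 0) = Ideal.span {b}) ∧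
  ∃ b : RF p D, b ≠ 0 ∧ ∏ j ∈ Finset.range p, I.map (f j j) = Ideal.span {b}

/-- `p A = p² A` for the class group `A` of the twisted Fermat curve -/
def TrivR (p : ℕ) {F : Type} [Field F] (D : F) : Prop :=
  ∀ I : Ideal (RF p D), I ≠ ⊥ → ∃ J : Ideal (RF p D), J ≠ ⊥ ∧ Sim (I ^ p) (J ^ (p ^ 2))

/-- JOB FER (uses `S_BSC`, `S_DED`, `S_NMM`, `S_FNR`).  The Fermat curve.
Proof.  `G = {(ζ^i, ζ^j)}` has `p + 1` subgroups of order `p`: the `H_r`, `0 ≤ r < p` (`H_0 = {i = 0}`, `H_(p-1) = {i = j}`), and `{j = 0}`; every element `≠ 1` belongs to exactly one: so `∏_H ∏_(h ∈ H) h(I) = I^p ∏_(g ∈ G) g(I)` (exponents: `p + 1` for `g = 1`), and `∏_G` is principal (`f i 0` applied to the second clause of `S_FNR`).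
So `I^p ∼ ∏_(r=1)^(p-2) (I_r RF)`, `I_r` ideals of `BQ p r`.  `t1 RF = (X)` (`(X Y^r, X^p) = (X)` as `X`, `Y` are coprime).  Let `A` be the class group of `RF` and `M` the subgroup generated by the classes of the ideals extended from the `BQ p r`.  `TrivF`: `M = p M`.  `p A ⊆ M`.  So `p A ⊆ M = p² M ⊆ p² A`. -/
def S_FER : Prop := ∀ (p : ℕ) [Fact p.Prime], p ≠ 2 → ∀ (F : Type) [Field F] [NumberField F] (ζ : F), IsPrimitiveRoot ζ p →
  ∀ D : F, D ≠ 0 → (∀ r : ℕ, Ok p r → TrivF p r D) → TrivR p D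

/-- JOB FIN (only Mathlib and `S_DED`).  Finiteness. -/
def S_FIN : Prop := ∀ (p : ℕ) [Fact p.Prime], p ≠ 2 → ∀ (F : Type) [Field F] [NumberField F] (D : F), D ≠ 0 →
  ∃ _ : IsDedekindDomain (RF p D), TrivR p D →
    (∀ a : ClassGroup (RF p D), ∃ b : ClassGroup (RF p D), a ^ p = b ^ (p ^ 2)) ∧
    (Group.FG (ClassGroup (RF p D)) → Finite (ClassGroup (RF p D)))

open Pool.Agent.Q7.LK in
open Pool.Agent.Q283.LQ (Sm Box Nest nS) in
/-- JOB UNI (only `Pool/Agent/Q7/CJ/Main.lean` as a template).  The union bound.  `S_SHARE` for `A = AF p r`; `Bad` for `r` and `1/r` are the same (`S_SYM`), the `r` with `r ≤ (1/r mod p)` are `(p - 1)/2` in number.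
Proof.  `∑_r share(Bad_r) ≤ (p - 1)/2 (1/(p-1) + ε)`; `Nest` of finitely many conditions (`nest_mono`, `nest_and`). -/
def S_UNI : Prop := ∀ (p : ℕ) [Fact p.Prime], p ≠ 2 → ∀ (F : Type) [Field F] [NumberField F] (ζ : F), IsPrimitiveRoot ζ p →
  ∃ y0 : ℕ, ∀ y, y0 ≤ y → ∀ D0 : F, D0 ≠ 0 → ∀ ε : ℝ, 0 < ε →
  ∃ k0 : ℕ, ∀ k, k0 ≤ k → ∀ z : Fin k → ZMod p, (∀ i, z i ≠ 0) → Nest k fun X =>
    (Box y X : Set (Fin k → HeightOneSpectrum (𝓞 F))).Finite ∧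
    0 < ({q ∈ (Box y X : Set (Fin k → HeightOneSpectrum (𝓞 F))) | ∃ D, Fits p y D0 z q D}.ncard : ℝ) ∧
    (1 / 2 - ε) *
        ({q ∈ (Box y X : Set (Fin k → HeightOneSpectrum (𝓞 F))) | ∃ D, Fits p y D0 z q D}.ncard : ℝ) ≤
      ({q ∈ (Box y X : Set (Fin k → HeightOneSpectrum (𝓞 F))) | (∃ D, Fits p y D0 z q D) ∧
        ∀ D, Fits p y D0 z q D → ∀ r : ℕ, Ok p r → ¬ Bad p (AF (F := F) p r) D}.ncard : ℝ)

end Pool.Agent.Q7.CF
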