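import Pool.Agent.Q7.CF.Law
import Pool.Agent.Q275.CF.UNI
import Pool.Agent.Q265.LK.Bas

/-!
# Project CF (helper7), part 4: assembly
-/

set_option autoImplicit false

namespace Pool.Agent.Q7.CF

open NumberField IsDedekindDomain Filter Topology Finset
open Pool.Agent.Q283.LQ (Sm Box Nest nS)
open Pool.Agent.Q7.LK
open Pool.Agent.Q283.EN (al S_LAWX)
open Pool.Agent.Q265.LK (lpw_pow_dvd)
open Pool.Agent.Q275.CF.UNI (nest_all nest_and)

section basics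

variable {p : ℕ} [hp : Fact p.Prime] {F : Type} [Field F] [NumberField F]

/-- the powers of `D` with exponents not divisible by `p` are no `p`-th powers -/
theorem pow_dvd_of_fits (hB : S_BAS) {y : ℕ} {D0 : F} {k : ℕ} (hk : 1 ≤ k) {z : Fin k → ZMod p} (hz : ∀ i, z i ≠ 0)
    {X : Fin k → ℕ} {q : Fin k → HeightOneSpectrum (𝓞 F)} (hq : q ∈ (Box y X : Set (Fin k → HeightOneSpectrum (𝓞 F))))
    {D : F} (hD : Fits p y D0 z q D) {n : ℕ} (h : IsPow p (D ^ n)) : p ∣ n := by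
  obtain ⟨x, hx⟩ := h
  have hx0 : x ≠ 0 := by
    rintro rfl
    rw [zero_pow hp.out.ne_zero] at hx
    exact pow_ne_zero n hD.ne hx
  set i : Fin k := ⟨0, hk⟩ with hi
  have h1 : vl p (q i) D = z i := by
    rw [hD.ram (q i) (hq.2 i).1, Finset.sum_eq_single i]
    · rw [if_pos rfl]
    · intro j _ hj
      rw [if_neg]
      intro h
      exact hj (hq.1 h)
    · intro h
      exact absurd (Finset.mem_univ i) h
  have h2 := Pool.Agent.Q265.LK.vl_pow (p := p) hB (q i) hD.ne n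
  rw [hx, Pool.Agent.Q265.LK.vl_pow hB (q i) hx0, ZMod.natCast_self, zero_mul, h1] at h2
  rcases mul_eq_zero.1 h2.symm with h3 | h3
  · exact (ZMod.natCast_eq_zero_iff _ _).1 h3
  · exact absurd h3 (hz i)

/-- the powers of `D` satisfy the local conditions -/
theorem cond_pow (hB : S_BAS) {A : HeightOneSpectrum (𝓞 F) → F → F → Prop} {c : HeightOneSpectrum (𝓞 F) → ℕ}
    (hA : Loc p A c) (h1 : ∀ v D, Dp p v → D ≠ 0 → A v D 1) {D : F} (hD : D ≠ 0) (n : ℕ) : Cond p A D (D ^ n) := by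
  refine ⟨pow_ne_zero n hD, fun v _ h0 => ?_, fun v _ _ => ?_, fun v hv => ?_⟩
  · rw [Pool.Agent.Q265.LK.vl_pow hB v hD, h0, mul_zero]
  · refine ⟨(p - 1) * n, ?_⟩
    rw [← pow_add]
    refine lpw_pow_dvd hB v hD ⟨n, ?_⟩
    have := hp.out.pos
    obtain ⟨m, rfl⟩ : ∃ m, p = m + 1 := ⟨p - 1, by omega⟩
    rw [Nat.add_sub_cancel]
    ring
  · induction n with
    | zero => rw [pow_zero]; exact h1 v D hv hD
    | succ n ih => rw [pow_succ]; exact hA.clo v D _ hv hD ih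

omit hp [NumberField F] in
theorem isPow_div_symm {a b : F} (h : IsPow p (a / b)) : IsPow p (b / a) := by
  obtain ⟨x, hx⟩ := h
  exact ⟨x⁻¹, by rw [inv_pow, ← hx, inv_div]⟩

/-- if there are at most `p` classes then `D` is not bad -/
theorem notBad (hB : S_BAS) {A : HeightOneSpectrum (𝓞 F) → F → F → Prop} {c : HeightOneSpectrum (𝓞 F) → ℕ}
    (hA : Loc p A c) (h1 : ∀ v D, Dp p v → D ≠ 0 → A v D 1) {D : F} (hD : D ≠ 0)
    (hpw : ∀ n, IsPow p (D ^ n) → p ∣ n) (h : AtMost p A D (p ^ (0 + 1))) : ¬ Bad p A D := by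
  classical
  rintro ⟨a, ha, ha2⟩
  have hinj : ∀ i j, i < p → j < p → IsPow p (D ^ i / D ^ j) → i = j := by
    have key : ∀ i j, i ≤ j → j < p → IsPow p (D ^ j / D ^ i) → i = j := by
      intro i j hij hj hx
      have h2 : D ^ j / D ^ i = D ^ (j - i) := by
        rw [div_eq_iff (pow_ne_zero i hD), ← pow_add, Nat.sub_add_cancel hij]
      rw [h2] at hx
      have h3 := Nat.eq_zero_of_dvd_of_lt (hpw _ hx) (by omega)
      omega
    intro i j hi hj hx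
    rcases le_total i j with hij | hij
    · exact key i j hij hj (isPow_div_symm hx)
    · exact (key j i hij hi hx).symm
  have hne : ∀ i, i ≤ p → ¬ IsPow p (a / D ^ i) := by
    intro i hi hx
    obtain ⟨x, hx⟩ := hx
    refine ha2 (p - i) ⟨x * D, ?_⟩
    rw [mul_pow, ← hx]
    have h3 : D ^ p = D ^ i * D ^ (p - i) := by rw [← pow_add, Nat.add_sub_cancel' hi]
    rw [h3]
    field_simp [pow_ne_zero i hD]
  have himg : Set.InjOn (fun i : ℕ => D ^ i) (Finset.range p : Set ℕ) := by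
    intro i hi j hj hij
    rw [Finset.coe_range, Set.mem_Iio] at hi hj
    refine hinj i j hi hj ⟨1, ?_⟩
    change D ^ i = D ^ j at hij
    rw [hij, div_self (pow_ne_zero j hD), one_pow]
  have hanot : a ∉ (Finset.range p).image fun i : ℕ => D ^ i := by
    intro hmem
    obtain ⟨i, hi, hia⟩ := Finset.mem_image.1 hmem
    refine hne i (Finset.mem_range.1 hi).le ⟨1, ?_⟩
    rw [← hia, div_self (pow_ne_zero i hD), one_pow]
  have hcard := h (insert a ((Finset.range p).image fun i : ℕ => D ^ i)) ?_ ?_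
  · rw [Finset.card_insert_of_notMem hanot, Finset.card_image_of_injOn himg, Finset.card_range, zero_add,
      pow_one] at hcard
    omega
  · intro b hb
    rcases Finset.mem_insert.1 hb with h2 | h2
    · rw [h2]
      exact ha
    · obtain ⟨i, -, rfl⟩ := Finset.mem_image.1 h2
      exact cond_pow hB hA h1 hD i
  · intro b hb b' hb' hbb hx
    rcases Finset.mem_insert.1 hb with h2 | h2 <;> rcases Finset.mem_insert.1 hb' with h3 | h3
    · exact hbb (h2.trans h3.symm)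
    · obtain ⟨i, hi, rfl⟩ := Finset.mem_image.1 h3
      rw [h2] at hx
      exact hne i (Finset.mem_range.1 hi).le hx
    · obtain ⟨i, hi, rfl⟩ := Finset.mem_image.1 h2
      rw [h3] at hx
      exact hne i (Finset.mem_range.1 hi).le (isPow_div_symm hx)
    · obtain ⟨i, hi, rfl⟩ := Finset.mem_image.1 h2
      obtain ⟨j, hj, rfl⟩ := Finset.mem_image.1 h3
      have := hinj i j (Finset.mem_range.1 hi) (Finset.mem_range.1 hj) hx
      exact hbb (by rw [this])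

theorem le_of_atLeast {A : HeightOneSpectrum (𝓞 F) → F → F → Prop} {D : F} {m n : ℕ}
    (h1 : AtLeast p A D (p ^ (m + 1))) (h2 : AtMost p A D (p ^ (n + 1))) : m ≤ n := by
  obtain ⟨B, hB1, hB2, hB3⟩ := h1
  have h3 := hB1.trans (h2 B hB2 hB3)
  have := (Nat.pow_le_pow_iff_right hp.out.one_lt).1 h3
  omega

end basics

/-- the bounds by the law -/
def S_LAWF : Prop := ∀ (p : ℕ) [Fact p.Prime], p ≠ 2 → ∀ (F : Type) [Field F] [NumberField F] (ζ : F), IsPrimitiveRoot ζ p →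
  ∃ y0 : ℕ, ∀ y, y0 ≤ y → ∀ D0 : F, D0 ≠ 0 → ∀ (R : ℕ) (ε : ℝ), 0 < ε →
  ∃ k0 : ℕ, 1 ≤ k0 ∧ ∀ k, k0 ≤ k → ∀ z : Fin k → ZMod p, (∀ i, z i ≠ 0) → Nest k fun X =>
    (Box y X : Set (Fin k → HeightOneSpectrum (𝓞 F))).Finite ∧
    0 < ((Ens p y D0 z X).ncard : ℝ) ∧ ∀ r : ℕ, Ok p r →
    (∀ n ≤ R, (∑ i ∈ range (n + 1), al p i - ε) * ((Ens p y D0 z X).ncard : ℝ) ≤
      ({q ∈ Ens p y D0 z X | ∀ D, Fits p y D0 z q D → AtMost p (AF (F := F) p r) D (p ^ (n + 1))}.ncard : ℝ)) ∧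
    ∀ (B : Finset (Fin k → HeightOneSpectrum (𝓞 F))) (m : (Fin k → HeightOneSpectrum (𝓞 F)) → ℕ),
      (∀ q ∈ B, q ∈ Ens p y D0 z X) →
      (∀ q ∈ B, ∃ D, Fits p y D0 z q D ∧ AtLeast p (AF (F := F) p r) D (p ^ (m q + 1))) →
      ∑ q ∈ B, (m q : ℝ) ≤ (rho p + ε) * ((Ens p y D0 z X).ncard : ℝ)

theorem lawf (hlx : S_LAWX) (h5 : S_LW5) (hbase : S_BASE) (hlo : S_LOC) (hhs : S_HS2) (hfloc : S_FLOC) (h6 : S_LW6) :
    S_LAWF := by
  classical
  intro p hp h2 F _ _ ζ hζ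
  have h3p : 3 ≤ p := by
    have := hp.out.two_le
    omega
  obtain ⟨t, ht1, ht2, ht3, ht4, ht5, ht6⟩ := hhs p h2 F ζ hζ
  have ht : Hilb p ζ t := ⟨ht1, ht2, ht3, ht4, ht5, ht6⟩
  obtain ⟨y0, hy0⟩ := h5 hlx p h2 F ζ hζ (hbase p h2 F ζ hζ) (fun y hy => hlo p h2 F ζ hζ y hy) t ht
  refine ⟨y0, fun y hy D0 hD0 R ε hε => ?_⟩
  have hex : ∀ r : ℕ, ∃ k0 : ℕ, r ∈ Icc 1 (p - 2) → 1 ≤ k0 ∧ ∀ k, k0 ≤ k → ∀ z : Fin k → ZMod p, (∀ i, z i ≠ 0) → Nest k fun X =>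
    (Box y X : Set (Fin k → HeightOneSpectrum (𝓞 F))).Finite ∧
    0 < ((Ens p y D0 z X).ncard : ℝ) ∧
    (∀ n ≤ R, (∑ i ∈ range (n + 1), al p i - ε) * ((Ens p y D0 z X).ncard : ℝ) ≤
      ({q ∈ Ens p y D0 z X | ∀ D, Fits p y D0 z q D → AtMost p (AF (F := F) p r) D (p ^ (n + 1))}.ncard : ℝ)) ∧
    ∀ (B : Finset (Fin k → HeightOneSpectrum (𝓞 F))) (m : (Fin k → HeightOneSpectrum (𝓞 F)) → ℕ),
      (∀ q ∈ B, q ∈ Ens p y D0 z X) →
      (∀ q ∈ B, ∃ D, Fits p y D0 z q D ∧ AtLeast p (AF (F := F) p r) D (p ^ (m q + 1))) →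
      ∑ q ∈ B, (m q : ℝ) ≤ (rho p + ε) * ((Ens p y D0 z X).ncard : ℝ) := by
    intro r
    by_cases hr : r ∈ Icc 1 (p - 2)
    · have hr' := Finset.mem_Icc.1 hr
      haveI : Ok p r := ⟨hr'.1, by omega⟩
      obtain ⟨h61, h62, h63⟩ := h6 p r F ζ hζ t ht
      obtain ⟨k0, hk0, h⟩ := hy0 y hy (AF (F := F) p r) (hfloc p r F ζ hζ) h61 h62 h63 D0 hD0 R ε hε
      exact ⟨k0, fun _ => ⟨hk0, h⟩⟩
    · exact ⟨0, fun h => absurd h hr⟩
  choose f hf using hex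
  have hone : 1 ∈ Icc 1 (p - 2) := by
    rw [Finset.mem_Icc]
    omega
  refine ⟨(Icc 1 (p - 2)).sup f, (hf 1 hone).1.trans (Finset.le_sup hone), fun k hk z hz => ?_⟩
  have hall := nest_all k (Icc 1 (p - 2)) _ fun r hr => (hf r hr).2 k ((Finset.le_sup hr).trans hk) z hz
  refine nest_mono k _ _ (fun X hX => ?_) hall
  obtain ⟨hfin, hpos, -⟩ := hX 1 hone
  refine ⟨hfin, hpos, fun r hr => ?_⟩
  obtain ⟨-, -, h7⟩ := hX r (by
    rw [Finset.mem_Icc]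
    have h1 := hr.h1
    have h2 := hr.h2
    omega)
  exact h7

/-! ## The results -/

section F

variable {F : Type} [Field F] [NumberField F]

/-- the Jacobian has no points besides the multiples of `T` up to `p`-fold ones, and there is no element of order `p` in its Tate-Shafarevich group -/
def GoodF (p r : ℕ) [Fact p.Prime] (D : F) : Prop :=
  ∀ _ : Ok p r, TrivF p r D ∧ ∀ x : Sha p r D, p • x = 0 → x = 0

/-- the group of the points of the Jacobian of `C_r` is finitely generated, of rank `n` -/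
def RkF (p r : ℕ) (D : F) (n : ℕ) : Prop :=
  ∃ _ : IsDomain (BQ p r D), Group.FG (ClassGroup (BQ p r D)) ∧
    Module.finrank ℤ (Additive (ClassGroup (BQ p r D))) = n

/-- the group of the points of the Jacobian of the Fermat curve is finitely generated, of rank `n` -/
def RkR (p : ℕ) (D : F) (n : ℕ) : Prop :=
  ∃ _ : IsDomain (RF p D), Group.FG (ClassGroup (RF p D)) ∧
    Module.finrank ℤ (Additive (ClassGroup (RF p D))) = n

end F

/-- the first main theorem -/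
def S_MAIN3 : Prop := ∀ (p : ℕ) [Fact p.Prime], p ≠ 2 → ∀ (F : Type) [Field F] [NumberField F] (ζ : F), IsPrimitiveRoot ζ p →
  ∃ y0 : ℕ, ∀ y, y0 ≤ y → ∀ D0 : F, D0 ≠ 0 → ∀ ε : ℝ, 0 < ε →
  ∃ k0 : ℕ, ∀ k, k0 ≤ k → ∀ z : Fin k → ZMod p, (∀ i, z i ≠ 0) → Nest k fun X =>
    (Box y X : Set (Fin k → HeightOneSpectrum (𝓞 F))).Finite ∧
    0 < ((Ens p y D0 z X).ncard : ℝ) ∧
    (∀ r : ℕ, Ok p r → (al p 0 - ε) * ((Ens p y D0 z X).ncard : ℝ) ≤
      ({q ∈ Ens p y D0 z X | ∀ D, Fits p y D0 z q D → GoodF p r D}.ncard : ℝ)) ∧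
    (1 - ((p : ℝ) - 1) / 2 * (1 - al p 0) - ε) * ((Ens p y D0 z X).ncard : ℝ) ≤
      ({q ∈ Ens p y D0 z X | ∀ D, Fits p y D0 z q D → TrivR p D ∧ ∀ r, GoodF p r D}.ncard : ℝ)

theorem main3 (hB : S_BAS) (hlaw : S_LAWF) (hfloc : S_FLOC) (hhs : S_HS2) (h6 : S_LW6) (hsym : S_SYM)
    (htri : S_FTRI) (hsha : S_SHA) (hfer : S_FER) : S_MAIN3 := by
  classical
  intro p hp h2 F _ _ ζ hζ
  have h3p : 3 ≤ p := by
    have := hp.out.two_le
    omega
  have hp1 : (0 : ℝ) < (p : ℝ) - 1 := by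
    have : (1 : ℝ) < p := by exact_mod_cast hp.out.one_lt
    linarith
  obtain ⟨y0, hy0⟩ := hlaw p h2 F ζ hζ
  refine ⟨y0, fun y hy D0 hD0 ε hε => ?_⟩
  set ε' : ℝ := min ε (2 * ε / ((p : ℝ) - 1)) with hε'
  have hε'0 : 0 < ε' := lt_min hε (by positivity)
  obtain ⟨k0, hk0, hk1⟩ := hy0 y hy D0 hD0 0 ε' hε'0
  refine ⟨k0, fun k hk z hz => nest_mono k _ _ (fun X hX => ?_) (hk1 k hk z hz)⟩
  obtain ⟨hfin, hpos, hX⟩ := hX
  have hk' : 1 ≤ k := hk0.trans hk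
  have hEf : (Ens p y D0 z X).Finite := hfin.subset fun q hq => hq.1
  set N : ℝ := ((Ens p y D0 z X).ncard : ℝ) with hN
  have hgood : ∀ q ∈ Ens p y D0 z X, ∀ r : ℕ, Ok p r →
      (∀ D, Fits p y D0 z q D → AtMost p (AF (F := F) p r) D (p ^ (0 + 1))) →
      ∀ D, Fits p y D0 z q D → ¬ Bad p (AF (F := F) p r) D := by
    intro q hq r hr h D hD
    haveI := hr
    obtain ⟨t, ht1, ht2, ht3, ht4, ht5, ht6⟩ := hhs p h2 F ζ hζ
    exact notBad hB (hfloc p r F ζ hζ) (h6 p r F ζ hζ t ⟨ht1, ht2, ht3, ht4, ht5, ht6⟩).1 hD.ne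
      (fun n hn => pow_dvd_of_fits hB hk' hz hq.1 hD hn) (h D hD)
  have hbad : ∀ r : ℕ, Ok p r → (al p 0 - ε') * N ≤
      ({q ∈ Ens p y D0 z X | ∀ D, Fits p y D0 z q D → ¬ Bad p (AF (F := F) p r) D}.ncard : ℝ) := by
    intro r hr
    have h4 := (hX r hr).1 0 le_rfl
    rw [zero_add, Finset.sum_range_one] at h4
    refine le_trans h4 ?_
    have hsub : {q ∈ Ens p y D0 z X | ∀ D, Fits p y D0 z q D → AtMost p (AF (F := F) p r) D (p ^ (0 + 1))} ⊆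
        {q ∈ Ens p y D0 z X | ∀ D, Fits p y D0 z q D → ¬ Bad p (AF (F := F) p r) D} :=
      fun q hq => ⟨hq.1, hgood q hq.1 r hr hq.2⟩
    exact Nat.cast_le.2 (Set.ncard_le_ncard hsub (hEf.subset fun q hq => hq.1))
  have hGF : ∀ D, D ≠ 0 → ∀ r, (∀ _ : Ok p r, ¬ Bad p (AF (F := F) p r) D) → GoodF p r D := by
    intro D hD r h hr
    haveI := hr
    exact ⟨htri p r F ζ hζ D hD (h hr), hsha p r F ζ hζ D hD (h hr)⟩
  refine ⟨hfin, hpos, fun r hr => ?_, ?_⟩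
  · refine le_trans (mul_le_mul_of_nonneg_right (by linarith [min_le_left ε (2 * ε / ((p : ℝ) - 1))]) hpos.le) ((hbad r hr).trans ?_)
    have hsub : {q ∈ Ens p y D0 z X | ∀ D, Fits p y D0 z q D → ¬ Bad p (AF (F := F) p r) D} ⊆
        {q ∈ Ens p y D0 z X | ∀ D, Fits p y D0 z q D → GoodF p r D} :=
      fun q hq => ⟨hq.1, fun D hD => hGF D hD.ne r fun _ => hq.2 D hD⟩
    exact Nat.cast_le.2 (Set.ncard_le_ncard hsub (hEf.subset fun q hq => hq.1))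
  · set G : Set (Fin k → HeightOneSpectrum (𝓞 F)) :=
      {q ∈ Ens p y D0 z X | ∀ D, Fits p y D0 z q D → TrivR p D ∧ ∀ r, GoodF p r D} with hG
    set B : ℕ → Set (Fin k → HeightOneSpectrum (𝓞 F)) := fun r =>
      {q ∈ Ens p y D0 z X | ¬ ∀ D, Fits p y D0 z q D → ¬ Bad p (AF (F := F) p r) D} with hBd
    have hRp : ∀ r ∈ Pool.Agent.Q275.CF.UNI.Rp p, Ok p r := by
      intro r hr
      have h1 := Finset.mem_Icc.1 (Finset.mem_filter.1 hr).1
      exact ⟨h1.1, by omega⟩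
    have hcov : Ens p y D0 z X ⊆ G ∪ ⋃ r ∈ Pool.Agent.Q275.CF.UNI.Rp p, B r := by
      intro q hq
      by_cases hg : ∀ r : ℕ, Ok p r → ∀ D, Fits p y D0 z q D → ¬ Bad p (AF (F := F) p r) D
      · left
        refine ⟨hq, fun D hD => ⟨hfer p h2 F ζ hζ D hD.ne fun r hr => ?_, fun r => hGF D hD.ne r fun hr => hg r hr D hD⟩⟩
        haveI := hr
        exact htri p r F ζ hζ D hD.ne (hg r hr D hD)
      · right
        simp only [not_forall, not_not] at hg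
        obtain ⟨r, hr, D, hD, hbd⟩ := hg
        have hrI : r ∈ Icc 1 (p - 2) := by
          rw [Finset.mem_Icc]
          have h1 := hr.h1
          have h2 := hr.h2
          omega
        have hrI' := Finset.mem_Icc.1 hrI
        rw [Set.mem_iUnion₂]
        by_cases hle : r ≤ Pool.Agent.Q275.CF.UNI.iv p r
        · exact ⟨r, Finset.mem_filter.2 ⟨hrI, hle⟩, hq, fun h => h D hD hbd⟩
        · have h4 := Pool.Agent.Q275.CF.UNI.iv_mem p hrI
          have h4' := Finset.mem_Icc.1 h4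
          have hok' : Ok p (Pool.Agent.Q275.CF.UNI.iv p r) := ⟨h4'.1, by omega⟩
          refine ⟨Pool.Agent.Q275.CF.UNI.iv p r, Finset.mem_filter.2 ⟨h4, ?_⟩, hq, fun h => h D hD ?_⟩
          · rw [Pool.Agent.Q275.CF.UNI.iv_iv p (by omega)]
            omega
          · exact Pool.Agent.Q275.CF.UNI.bad_sym hsym p F hr hok'
              (Pool.Agent.Q275.CF.UNI.mul_iv p hrI'.1 (by omega)) hD.ne hbd
    have hGf : G.Finite := hEf.subset fun q hq => hq.1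
    have hUf : (⋃ r ∈ Pool.Agent.Q275.CF.UNI.Rp p, B r).Finite := by
      refine hEf.subset fun q hq => ?_
      rw [Set.mem_iUnion₂] at hq
      obtain ⟨r, _, hq⟩ := hq
      exact hq.1
    have h2 : N ≤ G.ncard + ∑ r ∈ Pool.Agent.Q275.CF.UNI.Rp p, ((B r).ncard : ℝ) := by
      have h5 := Set.ncard_le_ncard hcov (hGf.union hUf)
      have h6 := Set.ncard_union_le G (⋃ r ∈ Pool.Agent.Q275.CF.UNI.Rp p, B r)
      have h7 := Pool.Agent.Q275.CF.UNI.ncard_bUnion_le (Pool.Agent.Q275.CF.UNI.Rp p) B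
      have h8 : (Ens p y D0 z X).ncard ≤ G.ncard + ∑ r ∈ Pool.Agent.Q275.CF.UNI.Rp p, (B r).ncard := by omega
      rw [hN]
      exact_mod_cast h8
    have h3 : ∀ r ∈ Pool.Agent.Q275.CF.UNI.Rp p, ((B r).ncard : ℝ) ≤ (1 - al p 0 + ε') * N := by
      intro r hr
      have h4 := hbad r (hRp r hr)
      have h5 : (Ens p y D0 z X) = {q ∈ Ens p y D0 z X | ∀ D, Fits p y D0 z q D → ¬ Bad p (AF (F := F) p r) D} ∪ B r := by
        ext q
        constructor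
        · intro hq
          by_cases h : ∀ D, Fits p y D0 z q D → ¬ Bad p (AF (F := F) p r) D
          · exact Or.inl ⟨hq, h⟩
          · exact Or.inr ⟨hq, h⟩
        · rintro (h | h)
          · exact h.1
          · exact h.1
      have h6 : Disjoint {q ∈ Ens p y D0 z X | ∀ D, Fits p y D0 z q D → ¬ Bad p (AF (F := F) p r) D} (B r) := by
        rw [Set.disjoint_left]
        intro q hq hq'
        exact hq'.2 hq.2
      have h7 := Set.ncard_union_eq h6 (hEf.subset fun q hq => hq.1) (hEf.subset fun q hq => hq.1)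
      rw [← h5] at h7
      have h8 : N = ({q ∈ Ens p y D0 z X | ∀ D, Fits p y D0 z q D → ¬ Bad p (AF (F := F) p r) D}.ncard : ℝ) +
          ((B r).ncard : ℝ) := by
        rw [hN, h7]
        push_cast
        ring
      linarith
    have h9 := Finset.sum_le_sum h3
    rw [Finset.sum_const, nsmul_eq_mul] at h9
    have h10 : ((Pool.Agent.Q275.CF.UNI.Rp p).card : ℝ) ≤ ((p : ℝ) - 1) / 2 := by
      have h11 := Pool.Agent.Q275.CF.UNI.card_Rp p h3p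
      have h13 : 2 * (Pool.Agent.Q275.CF.UNI.Rp p).card + 1 ≤ p := by omega
      have h14 : (2 * ((Pool.Agent.Q275.CF.UNI.Rp p).card : ℝ) + 1) ≤ p := by exact_mod_cast h13
      linarith
    have hc0 : 0 ≤ (1 - al p 0 + ε') * N :=
      le_trans (Nat.cast_nonneg _) (h3 1 (Pool.Agent.Q275.CF.UNI.one_mem p h3p))
    have h15 := mul_le_mul_of_nonneg_right h10 hc0
    have h16 : ((p : ℝ) - 1) / 2 * ε' ≤ ε := by
      have h17 := mul_le_mul_of_nonneg_left (min_le_right ε (2 * ε / ((p : ℝ) - 1))) (by positivity : 0 ≤ ((p : ℝ) - 1) / 2)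
      refine h17.trans (le_of_eq ?_)
      field_simp
    have h18 := mul_le_mul_of_nonneg_right h16 hpos.le
    nlinarith

/-- the theorem on the ranks -/
def S_MAIN4 : Prop := ∀ (p : ℕ) [Fact p.Prime], p ≠ 2 → ∀ (F : Type) [Field F] [NumberField F] (ζ : F), IsPrimitiveRoot ζ p →
  ∃ y0 : ℕ, ∀ y, y0 ≤ y → ∀ D0 : F, D0 ≠ 0 → ∀ (R : ℕ) (ε : ℝ), 0 < ε →
  ∃ k0 : ℕ, ∀ k, k0 ≤ k → ∀ z : Fin k → ZMod p, (∀ i, z i ≠ 0) → Nest k fun X =>
    (Box y X : Set (Fin k → HeightOneSpectrum (𝓞 F))).Finite ∧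
    0 < ((Ens p y D0 z X).ncard : ℝ) ∧
    (∀ r : ℕ, Ok p r → ∀ n ≤ R, (∑ i ∈ range (n + 1), al p i - ε) * ((Ens p y D0 z X).ncard : ℝ) ≤
      ({q ∈ Ens p y D0 z X | ∀ D, Fits p y D0 z q D → ∀ m, RkF p r D m → m ≤ (p - 1) * n}.ncard : ℝ)) ∧
    (∀ r : ℕ, Ok p r → ∀ (B : Finset (Fin k → HeightOneSpectrum (𝓞 F))) (m : (Fin k → HeightOneSpectrum (𝓞 F)) → ℕ),
      (∀ q ∈ B, q ∈ Ens p y D0 z X) → (∀ q ∈ B, ∃ D, Fits p y D0 z q D ∧ RkF p r D (m q)) →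
      ∑ q ∈ B, (m q : ℝ) ≤ (((p : ℝ) - 1) * rho p + ε) * ((Ens p y D0 z X).ncard : ℝ)) ∧
    ∀ (B : Finset (Fin k → HeightOneSpectrum (𝓞 F))) (m : (Fin k → HeightOneSpectrum (𝓞 F)) → ℕ),
      (∀ q ∈ B, q ∈ Ens p y D0 z X) → (∀ q ∈ B, ∃ D, Fits p y D0 z q D ∧ RkR p D (m q) ∧ ∀ r, Ok p r → ∃ n, RkF p r D n) →
      ∑ q ∈ B, (m q : ℝ) ≤ (((p : ℝ) - 1) * ((p : ℝ) - 2) * rho p + ε) * ((Ens p y D0 z X).ncard : ℝ)

theorem rkf_atLeast (hB : S_BAS) (hD : S_DED) (hrk2 : S_RK2) (p r : ℕ) [Fact p.Prime] [Ok p r] (F : Type) [Field F] [NumberField F]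
    (ζ : F) (hζ : IsPrimitiveRoot ζ p) {y : ℕ} {D0 : F} {k : ℕ} (hk : 1 ≤ k) {z : Fin k → ZMod p} (hz : ∀ i, z i ≠ 0)
    {X : Fin k → ℕ} {q : Fin k → HeightOneSpectrum (𝓞 F)} (hq : q ∈ (Box y X : Set (Fin k → HeightOneSpectrum (𝓞 F))))
    {D : F} (hf : Fits p y D0 z q D) {n : ℕ} (h : RkF p r D n) :
    ∃ m, n = (p - 1) * m ∧ AtLeast p (AF (F := F) p r) D (p ^ (m + 1)) := by
  obtain ⟨hdom, hfg, hn⟩ := h
  have hpw : ¬ IsPow p D := by
    intro h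
    have := pow_dvd_of_fits hB hk hz hq hf (n := 1) (by rwa [pow_one])
    exact (Fact.out : p.Prime).one_lt.ne' (Nat.dvd_one.1 this)
  obtain ⟨m, hm, hA⟩ := hrk2 p r F ζ hζ D hf.ne hpw (hD p r F D hf.ne).1 hfg
  exact ⟨m, hn.symm.trans hm, hA⟩

theorem main4 (hB : S_BAS) (hD : S_DED) (hlaw : S_LAWF) (hrk2 : S_RK2) (hrk3 : S_RK3) : S_MAIN4 := by
  classical
  intro p hp h2 F _ _ ζ hζ
  have h3p : 3 ≤ p := by
    have := hp.out.two_le
    omega
  have hp1 : (0 : ℝ) < (p : ℝ) - 1 := by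
    have : (1 : ℝ) < p := by exact_mod_cast hp.out.one_lt
    linarith
  have hp2 : (0 : ℝ) < (p : ℝ) - 2 := by
    have : (3 : ℝ) ≤ p := by exact_mod_cast h3p
    linarith
  obtain ⟨y0, hy0⟩ := hlaw p h2 F ζ hζ
  refine ⟨y0, fun y hy D0 hD0 R ε hε => ?_⟩
  set ε' : ℝ := min ε (min (ε / ((p : ℝ) - 1)) (ε / (((p : ℝ) - 1) * ((p : ℝ) - 2)))) with hε'
  have hε'0 : 0 < ε' := lt_min hε (lt_min (by positivity) (by positivity))
  have hle1 : ε' ≤ ε := min_le_left _ _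
  have hle2 : ((p : ℝ) - 1) * ε' ≤ ε := by
    have h := mul_le_mul_of_nonneg_left ((min_le_right _ _).trans (min_le_left _ _) : ε' ≤ ε / ((p : ℝ) - 1)) hp1.le
    refine h.trans (le_of_eq ?_)
    field_simp
  have hle3 : ((p : ℝ) - 1) * ((p : ℝ) - 2) * ε' ≤ ε := by
    have h := mul_le_mul_of_nonneg_left ((min_le_right _ _).trans (min_le_right _ _) : ε' ≤ ε / (((p : ℝ) - 1) * ((p : ℝ) - 2)))
      (mul_pos hp1 hp2).le
    refine h.trans (le_of_eq ?_)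
    field_simp
  obtain ⟨k0, hk0, hk1⟩ := hy0 y hy D0 hD0 R ε' hε'0
  refine ⟨k0, fun k hk z hz => nest_mono k _ _ (fun X hX => ?_) (hk1 k hk z hz)⟩
  obtain ⟨hfin, hpos, hX⟩ := hX
  have hk' : 1 ≤ k := hk0.trans hk
  have hEf : (Ens p y D0 z X).Finite := hfin.subset fun q hq => hq.1
  have hpc : ((p - 1 : ℕ) : ℝ) = (p : ℝ) - 1 := by
    rw [Nat.cast_sub hp.out.one_lt.le, Nat.cast_one]
  have hmean : ∀ r : ℕ, Ok p r → ∀ (B : Finset (Fin k → HeightOneSpectrum (𝓞 F))) (m : (Fin k → HeightOneSpectrum (𝓞 F)) → ℕ),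
      (∀ q ∈ B, q ∈ Ens p y D0 z X) → (∀ q ∈ B, ∃ D, Fits p y D0 z q D ∧ RkF p r D (m q)) →
      ∑ q ∈ B, (m q : ℝ) ≤ ((p : ℝ) - 1) * ((rho p + ε') * ((Ens p y D0 z X).ncard : ℝ)) := by
    intro r hr B m hBE hBm
    haveI := hr
    have hex : ∀ q, ∃ m' : ℕ, q ∈ B → m q = (p - 1) * m' ∧ ∃ D, Fits p y D0 z q D ∧ AtLeast p (AF (F := F) p r) D (p ^ (m' + 1)) := by
      intro q
      by_cases hq : q ∈ B
      · obtain ⟨D, hf, hrk⟩ := hBm q hq
        obtain ⟨m', hm', hA⟩ := rkf_atLeast hB hD hrk2 p r F ζ hζ hk' hz (hBE q hq).1 hf hrk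
        exact ⟨m', fun _ => ⟨hm', D, hf, hA⟩⟩
      · exact ⟨0, fun h => absurd h hq⟩
    choose m' hm' using hex
    have h4 := (hX r hr).2 B m' hBE fun q hq => (hm' q hq).2
    have h5 : ∑ q ∈ B, (m q : ℝ) = ((p : ℝ) - 1) * ∑ q ∈ B, (m' q : ℝ) := by
      rw [Finset.mul_sum]
      refine Finset.sum_congr rfl fun q hq => ?_
      rw [(hm' q hq).1, Nat.cast_mul, hpc]
    rw [h5]
    exact mul_le_mul_of_nonneg_left h4 hp1.le
  refine ⟨hfin, hpos, fun r hr n hn => ?_, fun r hr B m hBE hBm => ?_, fun B m hBE hBm => ?_⟩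
  · haveI := hr
    have h4 := (hX r hr).1 n hn
    refine le_trans (mul_le_mul_of_nonneg_right (by linarith) hpos.le) (h4.trans ?_)
    refine Nat.cast_le.2 (Set.ncard_le_ncard (fun q hq => ⟨hq.1, fun D hf m hm => ?_⟩) (hEf.subset fun q hq => hq.1))
    obtain ⟨m', hm', hA⟩ := rkf_atLeast hB hD hrk2 p r F ζ hζ hk' hz hq.1.1 hf hm
    have h5 := le_of_atLeast hA (hq.2 D hf)
    rw [hm']
    exact Nat.mul_le_mul_left _ h5
  · refine (hmean r hr B m hBE hBm).trans ?_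
    have h6 := mul_le_mul_of_nonneg_right hle2 hpos.le
    nlinarith
  · have hex : ∀ q, ∃ (m' : ℕ → ℕ), q ∈ B → m q ≤ ∑ r ∈ Icc 1 (p - 2), m' r ∧ ∃ D, Fits p y D0 z q D ∧
        ∀ r ∈ Icc 1 (p - 2), RkF p r D (m' r) := by
      intro q
      by_cases hq : q ∈ B
      · obtain ⟨D, hf, ⟨hdR, hfgR, hnR⟩, hrk⟩ := hBm q hq
        have hIok : ∀ r ∈ Icc 1 (p - 2), Ok p r := by
          intro r hr
          have h1 := Finset.mem_Icc.1 hr
          exact ⟨h1.1, by omega⟩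
        haveI : Ok p 1 := ⟨le_rfl, by omega⟩
        have hdB : ∀ r : ℕ, IsDomain (BQ p r D) := fun r => inferInstance
        refine ⟨fun r => Module.finrank ℤ (Additive (ClassGroup (BQ p r D))), fun _ => ⟨?_, D, hf, fun r hr => ?_⟩⟩
        · rw [← hnR]
          refine hrk3 p h2 F ζ hζ D hf.ne (hD p 1 F D hf.ne).2.2.1 hdB hfgR fun r hr => ?_
          obtain ⟨n, hdr, hfg, -⟩ := hrk r hr
          exact hfg
        · obtain ⟨n, hdr, hfg, -⟩ := hrk r (hIok r hr)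
          exact ⟨hdr, hfg, rfl⟩
      · exact ⟨fun _ => 0, fun h => absurd h hq⟩
    choose m' hm' using hex
    have h4 : ∑ q ∈ B, (m q : ℝ) ≤ ∑ r ∈ Icc 1 (p - 2), ∑ q ∈ B, (m' q r : ℝ) := by
      rw [Finset.sum_comm]
      refine Finset.sum_le_sum fun q hq => ?_
      exact_mod_cast (hm' q hq).1
    have h5 : ∀ r ∈ Icc 1 (p - 2), ∑ q ∈ B, (m' q r : ℝ) ≤ ((p : ℝ) - 1) * ((rho p + ε') * ((Ens p y D0 z X).ncard : ℝ)) := by
      intro r hr
      have h1 := Finset.mem_Icc.1 hr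
      refine hmean r ⟨h1.1, by omega⟩ B (fun q => m' q r) hBE fun q hq => ?_
      obtain ⟨D, hf, h⟩ := (hm' q hq).2
      exact ⟨D, hf, h r hr⟩
    have h6 := Finset.sum_le_sum h5
    rw [Finset.sum_const, nsmul_eq_mul, Nat.card_Icc] at h6
    have h7 : ((p - 2 + 1 - 1 : ℕ) : ℝ) = (p : ℝ) - 2 := by
      rw [Nat.add_sub_cancel, Nat.cast_sub (by omega)]
      norm_num
    rw [h7] at h6
    have h8 := mul_le_mul_of_nonneg_right hle3 hpos.le
    nlinarith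

end Pool.Agent.Q7.CF
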