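import Pool.Agent.Q7.CF.Stm3
import Pool.Agent.Q7.CE.Stm3

/-!
# Project CF (helper7), part 3: the `p`-adic closure of the group of the points of the Jacobians of the Fermat quotients

GOAL.  `S` any set of places of `F` above `p`, `N` the sum of the `[F_v : ℚ_p] / 2`, `v ∈ S`.  For a share of at least `1 - p^(-N) / (p - 1) - ε` of the `D` of every family: the points of `J_r(F)` which are
independent over `ℤ` are independent over `ℤ_p` in the product of the `J_r(F_v)`, `v ∈ S` (if `J_r(F)` is finitely generated: theorem of Mordell and Weil).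

Proof.  As for the elliptic curves in `Pool/Agent/Q7/CE/Stm3.lean` (`p = 3`): the proofs there (files `FS1`, `FLOC`, `FS2` of project CE, see `Pool/Agent/Q7/CE/All3.lean`) are adapted.
-/

set_option autoImplicit false

namespace Pool.Agent.Q7.CF

open Polynomial NumberField IsDedekindDomain
open Pool.Agent.Q7.LK

/-- the classes of the torsion points of the Jacobian over `F_v` -/
def ATo {F : Type} [Field F] [NumberField F] (p r : ℕ) (v : HeightOneSpectrum (𝓞 F)) (D a : F) : Prop :=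
  a ≠ 0 ∧ ∃ I : Ideal (BQ p r (D : v.adicCompletion F)), I ≠ ⊥ ∧
    (∃ n : ℕ, 0 < n ∧ Sim (I ^ n) (⊤ : Ideal (BQ p r (D : v.adicCompletion F)))) ∧
    ∃ s : v.adicCompletion F, s ≠ 0 ∧ nm p r (D : v.adicCompletion F) I = (a : v.adicCompletion F) * s ^ p

/-- the local conditions: at the places of `S` the classes of the torsion points, at the others all classes -/
def AS {F : Type} [Field F] [NumberField F] (p r : ℕ) (S : Set (HeightOneSpectrum (𝓞 F))) (v : HeightOneSpectrum (𝓞 F))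
    (D a : F) : Prop :=
  (v ∈ S → ATo p r v D a) ∧ (v ∉ S → AF p r v D a)

open Classical in
/-- the bound of the number of the local classes -/
noncomputable def cS {F : Type} [Field F] [NumberField F] (p : ℕ) (S : Set (HeightOneSpectrum (𝓞 F)))
    (v : HeightOneSpectrum (𝓞 F)) : ℕ :=
  if v ∈ S then 0 else dv p v / 2

/-- points of `J_r(F)` which are independent over `ℤ` are independent over `ℤ_p` in the product of the `J_r(F_v)`, `v ∈ S`: if for all `n` the combinations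
`∑ m_i P_i` with integers `m_i ≡ a_i` modulo `p^n` are divisible by `p^n` in `J_r(F_v)`, for all `v ∈ S`, then `a = 0` -/
def Indep {F : Type} [Field F] [NumberField F] (p r : ℕ) [Fact p.Prime] [Ok p r] (S : Set (HeightOneSpectrum (𝓞 F))) (D : F) : Prop :=
  ∀ (t : ℕ) (P : Fin t → Jp p r D F), (∀ c : Fin t → ℤ, IsOfFinAddOrder (∑ i, c i • P i) → c = 0) →
  ∀ a : Fin t → ℤ_[p], (∀ v ∈ S, ∀ n : ℕ, ∃ m : Fin t → ℤ, (∀ i, (p : ℤ_[p]) ^ n ∣ (m i : ℤ_[p]) - a i) ∧
    ∃ R : Jp p r D (v.adicCompletion F), ∑ i, m i • act p r D (Algebra.ofId F (v.adicCompletion F)) (P i) = (p ^ n : ℕ) • R) →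
  a = 0

/-- JOB GS1 (pure algebra).  From a relation to a point: `CE.S_FS1` for all `p`.  Adapt the CE proof.
Proof.  See `Pool.Agent.Q7.CE.S_FS1`; the only change: `R' = θ R'` gives `R' = θ^(p-1) R' ⊆ p R'`. -/
def S_GS1 : Prop := ∀ (p : ℕ) [Fact p.Prime] (M : Type) [AddCommGroup M], Module.Finite ℤ M → ∀ θ θ' : M →+ M,
  (∀ x, θ' (θ x) = p • x ∧ θ (θ' x) = p • x ∧ ∃ y, θ^[p - 1] x = p • y) →
  ∀ (ι : Type) (N : ι → Type) [∀ v, AddCommGroup (N v)] (θN θN' : ∀ v, N v →+ N v) (loc : ∀ v, M →+ N v),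
  (∀ v x, loc v (θ x) = θN v (loc v x)) → (∀ v x, θN v (θN' v x) = p • x) →
  ∀ (r : ℕ) (P : Fin r → M), (∀ c : Fin r → ℤ, IsOfFinAddOrder (∑ i, c i • P i) → c = 0) →
  ∀ a : Fin r → ℤ_[p], a ≠ 0 → (∀ v, ∀ n : ℕ, ∃ m : Fin r → ℤ, (∀ i, (p : ℤ_[p]) ^ n ∣ (m i : ℤ_[p]) - a i) ∧
    ∃ R : N v, ∑ i, m i • loc v (P i) = (p ^ n : ℕ) • R) →
  ∃ Q : M, (∀ x τ, IsOfFinAddOrder τ → Q ≠ θ x + τ) ∧ ∀ v, ∃ x τ, IsOfFinAddOrder τ ∧ loc v Q = θN v x + τ

/-- JOB GLOC (uses `S_BAS`, `S_CPL`, `S_FLOC`; `S_BSC`, `S_DED`, `S_NMM`, `S_MV`, `S_BC`, `S_INJ`, `S_AMB`, `S_DIC`, `S_FUN`, `S_STR`).  `AS` has the properties of `Loc`.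
Proof.  `v ∉ S`: `S_FLOC`.  `v ∈ S`, `K = v.adicCompletion F`: as in `CE.S_FLOC`: `clo`: multiply by `t2` (`t2^p = (w)`); `pow`; `inv`: the isomorphism of `S_FLOC`.  `num`: let `P_b`, `b ∈ B`, be torsion points of `J(K)` of class `b`; `G` = the subgroup generated by the `P_b` and their images under `σ^i`, finite, stable under `θ = 1 - σ`;
`#(G / θ G) = #(ker θ on G) ≤ p` (`S_STR` (3): `S_AMB`), and `b ↦ P_b` modulo `θ G` is injective: `P_b - P_b' ∈ θ G` implies that `b / b'` is a `p`-th power (`nm(σ I) = nm I`, `S_MV`). -/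
def S_GLOC : Prop := ∀ (p r : ℕ) [Fact p.Prime] [Ok p r] (F : Type) [Field F] [NumberField F] (ζ : F), IsPrimitiveRoot ζ p →
  ∀ S : Set (HeightOneSpectrum (𝓞 F)), Loc p (AS (F := F) p r S) (cS p S)

/-- JOB GS2 (uses `S_GS1`, `S_DED`, `S_NMM`, `S_MV`, `S_BC`, `S_INJ`, `S_FCOND`, `S_DIC`, `S_FUN`, `S_STR`).  Independence.
Proof.  As `CE.S_FS2`: `θ = 1 - σ`, `θ' = p / (1 - σ)` (a polynomial in `σ`: `∑ σ^i = 0` on the points, `S_STR`).  If `Indep` fails, `S_GS1` (for `M = J(F)`, finitely generated by hypothesis, `N v = J(F_v)`, `v ∈ S`) gives `Q`; let `a ∈ F^*` be its class (`S_MV`: an ideal `I` of the class of `Q` with `nm I ≠ 0`).  `AF p r v D a` for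
all `v`, so `Cond` (`S_FCOND`) for `AF`; at `v ∈ S`: `loc Q = θ x + τ`, so the class of `τ` is `a`: `ATo`.  So `Cond p (AS p r S) D a`, and as `D` is not bad `a D^j` is a `p`-th power; it is the class of `Q + j [t2]` (`nm t2 = D`), which is in `θ J(F)` by `S_INJ`; `[t2]` is torsion: contradiction. -/
def S_GS2 : Prop := ∀ (p r : ℕ) [Fact p.Prime] [Ok p r] (F : Type) [Field F] [NumberField F] (ζ : F), IsPrimitiveRoot ζ p →
  ∀ D : F, D ≠ 0 → ∀ S : Set (HeightOneSpectrum (𝓞 F)), (∀ v ∈ S, Dp p v) → ¬ Bad p (AS (F := F) p r S) D →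
  AddGroup.FG (Jp p r D F) → Indep p r S D

end Pool.Agent.Q7.CF
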