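import Pool.Agent.Q7.CF.Main
import Pool.Agent.Q7.CF.Stm4

/-!
# Project CF, part 3 (helper7): assembly
-/

set_option autoImplicit false

namespace Pool.Agent.Q7.CF

open NumberField IsDedekindDomain Filter Topology Finset
open Pool.Agent.Q283.LQ (Sm Box Nest nS)
open Pool.Agent.Q7.LK
open Pool.Agent.Q7.CE (S_ESUM)

open Classical in
/-- half of the sum of the local degrees at the places of `S` above `p` -/
noncomputable def hS {F : Type} [Field F] [NumberField F] (p : ℕ) (S : Set (HeightOneSpectrum (𝓞 F))) : ℕ :=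
  ∑ᶠ v : HeightOneSpectrum (𝓞 F), if v ∈ S then dv p v / 2 else 0

/-- the theorem on independence -/
def S_MAIN5 : Prop := ∀ (p r : ℕ) [Fact p.Prime] [Ok p r] (F : Type) [Field F] [NumberField F] (ζ : F), IsPrimitiveRoot ζ p →
  ∃ y0 : ℕ, ∀ y, y0 ≤ y →
  ∀ D0 : F, D0 ≠ 0 → ∀ S : Set (HeightOneSpectrum (𝓞 F)), (∀ v ∈ S, Dp p v) → ∀ ε : ℝ, 0 < ε →
  ∃ k0 : ℕ, ∀ k, k0 ≤ k → ∀ z : Fin k → ZMod p, (∀ i, z i ≠ 0) → Nest k fun X =>
    (Box y X : Set (Fin k → HeightOneSpectrum (𝓞 F))).Finite ∧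
    0 < ({q ∈ (Box y X : Set (Fin k → HeightOneSpectrum (𝓞 F))) | ∃ D, Fits p y D0 z q D}.ncard : ℝ) ∧
    (1 - (1 / (p : ℝ)) ^ hS p S / ((p : ℝ) - 1) - ε) *
        ({q ∈ (Box y X : Set (Fin k → HeightOneSpectrum (𝓞 F))) | ∃ D, Fits p y D0 z q D}.ncard : ℝ) ≤
      ({q ∈ (Box y X : Set (Fin k → HeightOneSpectrum (𝓞 F))) | (∃ D, Fits p y D0 z q D) ∧
        ∀ D, Fits p y D0 z q D → (AddGroup.FG (Jp p r D F) → Indep p r S D)}.ncard : ℝ)

theorem fin_dv (p : ℕ) [hp : Fact p.Prime] (F : Type) [Field F] [NumberField F] : {v : HeightOneSpectrum (𝓞 F) | Dp p v}.Finite := by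
  have h3 : ((p : ℕ) : 𝓞 F) ≠ 0 := Nat.cast_ne_zero.2 hp.out.ne_zero
  have h := Ideal.finite_factors (I := Ideal.span {((p : ℕ) : 𝓞 F)})
    (fun h => h3 (Ideal.span_singleton_eq_bot.1 h))
  refine h.subset fun v hv => ?_
  rw [Set.mem_ofPred_eq, Ideal.dvd_span_singleton]
  exact hv

theorem sum_cS (p : ℕ) [hp : Fact p.Prime] {F : Type} [Field F] [NumberField F] (S : Set (HeightOneSpectrum (𝓞 F))) :
    (∑ᶠ v : HeightOneSpectrum (𝓞 F), cS p S v) + hS p S = ∑ᶠ v : HeightOneSpectrum (𝓞 F), dv p v / 2 := by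
  classical
  have h0 : ∀ v : HeightOneSpectrum (𝓞 F), dv p v / 2 ≠ 0 → Dp p v := by
    intro v h
    by_contra hv
    apply h
    unfold dv
    rw [if_neg hv]
  rw [hS, ← finsum_add_distrib]
  · refine finsum_congr fun v => ?_
    unfold cS
    split_ifs <;> simp
  · refine (fin_dv p F).subset fun v hv => h0 v ?_
    intro h
    apply hv
    unfold cS
    split_ifs
    · rfl
    · exact h
  · refine (fin_dv p F).subset fun v hv => h0 v ?_
    intro h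
    apply hv
    dsimp only
    split_ifs
    · exact h
    · rfl

/-- the mean of the number of the nontrivial classes -/
theorem mu_le5 (hsum : S_ESUM) (p : ℕ) [hp : Fact p.Prime] (h2 : p ≠ 2) (F : Type) [Field F] [NumberField F] (ζ : F)
    (hζ : IsPrimitiveRoot ζ p) (S : Set (HeightOneSpectrum (𝓞 F))) :
    ((p : ℝ) ^ (∑ᶠ v : HeightOneSpectrum (𝓞 F), cS p S v) *
      (1 / (p : ℝ)) ^ InfinitePlace.nrComplexPlaces F) ≤ (1 / (p : ℝ)) ^ hS p S := by
  have hp0 : (0 : ℝ) < p := by exact_mod_cast hp.out.pos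
  have h1 := Pool.Agent.Q7.CJ.mu_le hsum p h2 F ζ hζ
  rw [← sum_cS p S, pow_add, mul_right_comm] at h1
  have h3 : (0 : ℝ) < (p : ℝ) ^ hS p S := by positivity
  rw [one_div_pow (p : ℝ) (hS p S), le_div_iff₀ h3]
  exact h1

theorem main5 (hshare : S_SHARE) (hsum : S_ESUM) (hgloc : S_GLOC) (hgs : S_GS2) : S_MAIN5 := by
  intro p r hp hok F _ _ ζ hζ
  have h2 := ok_ne_two p r
  have hp1 : (0 : ℝ) < (p : ℝ) - 1 := by
    have : (1 : ℝ) < p := by exact_mod_cast hp.out.one_lt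
    linarith
  obtain ⟨y0, hy0⟩ := hshare p h2 F ζ hζ
  refine ⟨y0, fun y hy D0 hD0 S hS3 ε hε => ?_⟩
  obtain ⟨k0, hk0⟩ := hy0 y hy (AS p r S) (cS p S) (hgloc p r F ζ hζ S) D0 hD0 ε hε
  refine ⟨k0, fun k hk z hz => nest_mono k _ _ (fun X hX => ?_) (hk0 k hk z hz)⟩
  obtain ⟨hfin, hpos, hN⟩ := hX
  refine ⟨hfin, hpos, ?_⟩
  set T : Set (Fin k → HeightOneSpectrum (𝓞 F)) :=
    {q ∈ (Box y X : Set (Fin k → HeightOneSpectrum (𝓞 F))) | ∃ D, Fits p y D0 z q D} with hT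
  set G : Set (Fin k → HeightOneSpectrum (𝓞 F)) :=
    {q ∈ (Box y X : Set (Fin k → HeightOneSpectrum (𝓞 F))) | (∃ D, Fits p y D0 z q D) ∧
      ∀ D, Fits p y D0 z q D → (AddGroup.FG (Jp p r D F) → Indep p r S D)} with hG
  set B : Set (Fin k → HeightOneSpectrum (𝓞 F)) :=
    {q ∈ (Box y X : Set (Fin k → HeightOneSpectrum (𝓞 F))) | ∃ D, Fits p y D0 z q D ∧
      Bad p (AS p r S) D} with hB
  have hcov : T ⊆ G ∪ B := by
    intro q hq
    by_cases hg : q ∈ G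
    · exact Or.inl hg
    · right
      rw [hG] at hg
      simp only [Set.mem_ofPred_eq, not_and, not_forall] at hg
      obtain ⟨D, hD, hfg, hns⟩ := hg hq.1 hq.2
      refine ⟨hq.1, D, hD, ?_⟩
      by_contra hbad
      exact hns (hgs p r F ζ hζ D hD.ne S hS3 hbad hfg)
  have hGf : G.Finite := hfin.subset fun q hq => hq.1
  have hBf : B.Finite := hfin.subset fun q hq => hq.1
  have h2 : (T.ncard : ℝ) ≤ G.ncard + B.ncard := by
    exact_mod_cast le_trans (Set.ncard_le_ncard hcov (hGf.union hBf)) (Set.ncard_union_le G B)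
  have h3 : ((p : ℝ) ^ (∑ᶠ v : HeightOneSpectrum (𝓞 F), cS p S v) *
      (1 / (p : ℝ)) ^ InfinitePlace.nrComplexPlaces F / ((p : ℝ) - 1) + ε) ≤
      (1 / (p : ℝ)) ^ hS p S / ((p : ℝ) - 1) + ε := by
    have h4 := mu_le5 hsum p (ok_ne_two p r) F ζ hζ S
    have h5 := div_le_div_of_nonneg_right h4 hp1.le
    linarith
  have h6 : (B.ncard : ℝ) ≤ ((1 / (p : ℝ)) ^ hS p S / ((p : ℝ) - 1) + ε) * T.ncard := by
    refine le_trans hN (mul_le_mul_of_nonneg_right ?_ (by positivity))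
    exact h3
  linarith

end Pool.Agent.Q7.CF
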