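import Pool.Agent.Q7.CF.Fin1
import Pool.Agent.Q7.CF.Main4
import Pool.Agent.Q7.CF.Main5
import Pool.Agent.Q7.LK.All2
import Pool.Agent.Q7.CE.All
import Pool.Agent.Q79.CJ.RP
import Pool.Agent.Q198.CJ.RS
import Pool.Agent.Q211.CJ.KUM
import Pool.Agent.Q190.CF.Rtg
import Pool.Agent.Q190.CF.Rpg
import Pool.Agent.Q182.CF.BSC
import Pool.Agent.Q299.CF.DED
import Pool.Agent.Q238.CF.NMM
import Pool.Agent.Q223.CF.NMP
import Pool.Agent.Q53.CF.MV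
import Pool.Agent.Q79.CF.BC
import Pool.Agent.Q79.CF.AMB
import Pool.Agent.Q214.CF.NI
import Pool.Agent.Q53.CF.H90
import Pool.Agent.Q222.CF.CLOS
import Pool.Agent.Q38.CF.D4H
import Pool.Agent.Q13.CF.D5
import Pool.Agent.Q259.CF.D6
import Pool.Agent.Q123.CF.Inj
import Pool.Agent.Q205.CF.ORTH
import Pool.Agent.Q79.CF.SYM
import Pool.Agent.Q224.CF.TAME
import Pool.Agent.Q151.CF.FLOC
import Pool.Agent.Q205.CF.FCOND
import Pool.Agent.Q151.CF.FTRI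
import Pool.Agent.Q214.CF.FNR
import Pool.Agent.Q285.CF.FER
import Pool.Agent.Q285.CF.FIN
import Pool.Agent.Q275.CF.UNI
import Pool.Agent.Q285.CF.LIM
import Pool.Agent.Q285.CF.DIC
import Pool.Agent.Q285.CF.FUN
import Pool.Agent.Q211.CF.STR
import Pool.Agent.Q190.CF.Lst
import Pool.Agent.Q211.CF.GST
import Pool.Agent.Q53.CF.SHA
import Pool.Agent.Q53.CF.GS1
import Pool.Agent.Q224.CF.GLOC
import Pool.Agent.Q224.CF.GS2

/-!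
# Project CF: all parts together (parts 1, 2 and 3)
-/

set_option autoImplicit false

namespace Pool.Agent.Q7.CF

open Pool.Agent.Q7.LK
open Pool.Agent.Q7.CE (t_ISO t_ESUM)

theorem t_RS : Pool.Agent.Q7.CJ.S_RS := Pool.Agent.Q198.CJ.rs
theorem t_RP : Pool.Agent.Q7.CJ.S_RP := Pool.Agent.Q79.CJ.rp
theorem t_KUM : Pool.Agent.Q7.CJ.S_KUM := Pool.Agent.Q211.CJ.kum
theorem t_RTG : S_RTG := Pool.Agent.Q190.CF.rtg t_RS
theorem t_RPG : S_RPG := Pool.Agent.Q190.CF.rpg t_RS t_RTG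
theorem t_BSC : S_BSC := Pool.Agent.Q182.CF.bsc
theorem t_DED : S_DED := Pool.Agent.Q299.CF.DED.ded t_BSC
theorem t_NMM : S_NMM := Pool.Agent.Q238.CF.nmm t_BSC t_DED
theorem t_NMP : S_NMP := Pool.Agent.Q223.CF.nmp t_BSC t_DED
theorem t_MV : S_MV := Pool.Agent.Q53.CF.MV.mv t_DED t_NMM t_NMP
theorem t_BC : S_BC := Pool.Agent.Q79.CF.BC.bcf t_BSC t_DED
theorem t_NI : S_NI := Pool.Agent.Q214.CF.NI.ni t_BSC t_DED
theorem t_H90 : S_H90 := Pool.Agent.Q53.CF.H90.h90 t_DED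
theorem t_AMB : S_AMB := Pool.Agent.Q79.CF.amb t_BSC t_DED t_NMM t_MV
theorem t_CLOS : S_CLOS := Pool.Agent.Q222.CF.clos t_RS t_BSC t_DED t_MV t_BC t_NI t_H90
theorem t_D4H : S_D4H := Pool.Agent.Q38.CF.d4h t_BSC t_DED t_NMM t_MV t_BC t_NI t_AMB
theorem t_D5 : S_D5 := Pool.Agent.Q13.CF.d5 t_BSC t_DED t_NMM t_MV
theorem t_D6 : S_D6 := Pool.Agent.Q259.CF.d6 t_BSC t_DED
theorem t_INJ : S_INJ := Pool.Agent.Q123.CF.inj t_DED t_NMM t_MV t_BC t_CLOS t_D4H t_D5 t_D6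
theorem t_ORTH : S_ORTH := Pool.Agent.Q205.CF.orth t_RS t_RP t_RPG t_DED t_NMM t_BC
theorem t_SYM : S_SYM := Pool.Agent.Q79.CF.sym t_BSC t_DED t_NMM
theorem t_TAME : S_TAME := Pool.Agent.Q224.CF.tame t_BAS t_DED t_NMM
theorem t_FLOC : S_FLOC := Pool.Agent.Q151.CF.floc t_BAS t_CPL t_NRM t_HS2 t_ISO t_BSC t_DED t_NMM t_ORTH
theorem t_FCOND : S_FCOND := Pool.Agent.Q205.CF.fcond t_BAS t_CPL t_NRM t_HS2 t_NMM t_ORTH t_TAME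
theorem t_FTRI : S_FTRI := Pool.Agent.Q151.CF.Tri.ftri t_DED t_NMM t_MV t_BC t_NI t_INJ t_FCOND
theorem t_FNR : S_FNR := Pool.Agent.Q214.CF.fnr t_BSC t_DED
theorem t_FER : S_FER := Pool.Agent.Q7.CF.FERp.fer t_BSC t_DED t_NMM t_FNR
theorem t_FIN : S_FIN := Pool.Agent.Q7.CF.FINp.fin t_DED
theorem t_UNI : S_UNI := Pool.Agent.Q275.CF.UNI.uni t_SHARE t_ESUM t_FLOC t_SYM
theorem t_LIM : S_LIM := Pool.Agent.Q285.CFLIM.lim t_DED t_BC t_D5 t_D6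
theorem t_DIC : S_DIC := Pool.Agent.Q285.CFDIC.dic t_DED t_BC
theorem t_FUN : S_FUN := Pool.Agent.Q285.CFFUN.fun_ t_DIC
theorem t_STR : S_STR := Pool.Agent.Q211.CF.str t_DED t_NMM t_NI t_AMB t_CLOS t_D4H t_DIC t_FUN
theorem t_LST : S_LST := Pool.Agent.Q190.CF.Lst.lst t_DED t_NMM t_MV t_BC t_D4H t_LIM t_DIC t_FUN t_STR
theorem t_GST : S_GST := Pool.Agent.Q211.CF.gst t_DED t_NMM t_BC t_D4H t_DIC t_FUN t_STR
theorem t_SHA : S_SHA := Pool.Agent.Q53.CF.SHA.sha t_DIC t_FUN t_STR t_KUM t_LST t_GST t_FCOND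
theorem t_MAIN1 : S_MAIN1 := main1 t_SHARE t_ESUM t_FLOC t_FTRI t_SHA
theorem t_MAIN2 : S_MAIN2 := main2 t_UNI t_FER t_FTRI t_SHA
theorem t_GS1 : S_GS1 := Pool.Agent.Q53.CF.gs1
theorem t_GLOC : S_GLOC := Pool.Agent.Q224.CF.gloc t_BAS t_CPL t_FLOC t_BSC t_DED t_NMM t_MV t_BC t_INJ t_AMB t_DIC t_FUN t_STR
theorem t_GS2 : S_GS2 := Pool.Agent.Q224.CF.gs2 t_GS1 t_DED t_NMM t_MV t_BC t_INJ t_FCOND t_DIC t_FUN t_STR
theorem t_MAIN5 : S_MAIN5 := main5 t_SHARE t_ESUM t_GLOC t_GS2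

end Pool.Agent.Q7.CF
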