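import Mathlib

/-!
# Project CF (helper7): the twisted Fermat curves `X^p + Y^p = D` and their quotients: definitions

`p` is an odd prime, `L` a field of characteristic `0`, `D ∈ L^*`, `1 ≤ r ≤ p - 2`.

`RF p D = L[X, Y] / (X^p + Y^p - D)` is the coordinate ring of the affine Fermat curve.  Its subring `BQ p r D`, spanned by the monomials `X^a Y^b` with `b ≡ r a` modulo `p`, is
the coordinate ring (integrally closed) of the curve `C_r : v^p = u (D - u)^r`, `u = X^p`, `v = X Y^r`, of genus `(p - 1)/2`, with one point at infinity.  So the class group of `BQ p r D` is the group of the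
`L`-points of the Jacobian `J_r` of `C_r` (divisor classes of degree `0`).  As a module over `L[u]` it has the basis `v_i = X^i Y^(r i mod p)`, `0 ≤ i < p`.
-/

set_option autoImplicit false

namespace Pool.Agent.Q7.CF

open Polynomial

/-- the exponents -/
class Ok (p r : ℕ) : Prop where
  h1 : 1 ≤ r
  h2 : r + 2 ≤ p

section

variable (p : ℕ) {L : Type} [Field L]

/-- `Y^p - (D - X^p)` as a polynomial in `Y` over `L[X]` -/
noncomputable def fF (D : L) : L[X][X] := X ^ p - C (C D - X ^ p)

/-- the coordinate ring `L[X, Y] / (X^p + Y^p - D)` of the affine Fermat curve -/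
abbrev RF (D : L) : Type := AdjoinRoot (fF p D)

/-- the function `X` -/
noncomputable def XF (D : L) : RF p D := AdjoinRoot.of (fF p D) X

/-- the function `Y` -/
noncomputable def YF (D : L) : RF p D := AdjoinRoot.root (fF p D)

theorem fF_monic [Fact p.Prime] (D : L) : (fF p D).Monic :=
  monic_X_pow_sub_C _ (Fact.out (p := p.Prime)).ne_zero

theorem fF_natDegree [Fact p.Prime] (D : L) : (fF p D).natDegree = p :=
  natDegree_X_pow_sub_C

/-- the equation of the curve -/
theorem fermat_eq (D : L) : XF p D ^ p + YF p D ^ p = algebraMap L (RF p D) D := by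
  have h : AdjoinRoot.mk (fF p D) (X ^ p - C (C D - X ^ p)) = 0 := by
    rw [AdjoinRoot.mk_eq_zero]
    exact dvd_rfl
  rw [map_sub, map_pow, AdjoinRoot.mk_X, AdjoinRoot.mk_C, sub_eq_zero, map_sub, map_pow] at h
  change XF p D ^ p + AdjoinRoot.root (fF p D) ^ p = AdjoinRoot.of (fF p D) (C D)
  rw [h]
  unfold XF
  ring

theorem eval₂_fF {S : Type} [CommRing S] (i : L[X] →+* S) (a : S) (D : L) :
    (fF p D).eval₂ i a = a ^ p - i (C D - X ^ p) := by
  unfold fF
  rw [eval₂_sub, eval₂_X_pow, eval₂_C]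

/-- the automorphism `Y ↦ ζ Y` of the Fermat curve -/
noncomputable def sF (D ζ : L) (h : ζ ^ p = 1) : RF p D →ₐ[L[X]] RF p D :=
  AdjoinRoot.liftAlgHom (fF p D) (Algebra.ofId L[X] (RF p D)) (algebraMap L (RF p D) ζ * YF p D) (by
    have h1 : algebraMap L (RF p D) ζ ^ p = 1 := by rw [← map_pow, h, map_one]
    have h2 : YF p D ^ p = algebraMap L (RF p D) D - XF p D ^ p := by
      rw [← fermat_eq p D]
      ring
    rw [eval₂_fF, mul_pow, h1, one_mul, h2, sub_eq_zero]
    change _ = (AdjoinRoot.of (fF p D)) (C D - X ^ p)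
    rw [map_sub, map_pow]
    rfl)

/-- the homomorphism of coordinate rings given by a homomorphism of fields -/
noncomputable def bF {M : Type} [Field M] (φ : L →+* M) (D : L) (D' : M) (h : φ D = D') : RF p D →+* RF p D' :=
  AdjoinRoot.map (mapRingHom φ) (fF p D) (fF p D') (by
    unfold fF
    rw [Polynomial.map_sub, Polynomial.map_pow, map_X, map_C]
    simp only [coe_mapRingHom, Polynomial.map_sub, Polynomial.map_pow, map_X, map_C, h]
    exact dvd_rfl)

theorem sF_YF (D ζ : L) (h : ζ ^ p = 1) : sF p D ζ h (YF p D) = algebraMap L (RF p D) ζ * YF p D := by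
  unfold sF YF
  exact AdjoinRoot.liftAlgHom_root _ _ _ _

theorem sF_of (D ζ : L) (h : ζ ^ p = 1) (g : L[X]) : sF p D ζ h (AdjoinRoot.of (fF p D) g) = AdjoinRoot.of (fF p D) g :=
  (sF p D ζ h).commutes g

theorem sF_XF (D ζ : L) (h : ζ ^ p = 1) : sF p D ζ h (XF p D) = XF p D := sF_of p D ζ h X

theorem bF_YF {M : Type} [Field M] (φ : L →+* M) (D : L) (D' : M) (h : φ D = D') :
    bF p φ D D' h (YF p D) = YF p D' := by
  unfold bF YF
  exact AdjoinRoot.map_root _ _ _ _

theorem bF_of {M : Type} [Field M] (φ : L →+* M) (D : L) (D' : M) (h : φ D = D') (g : L[X]) :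
    bF p φ D D' h (AdjoinRoot.of (fF p D) g) = AdjoinRoot.of (fF p D') (g.map φ) := by
  unfold bF
  exact AdjoinRoot.map_of _ _ _ _ _

theorem bF_XF {M : Type} [Field M] (φ : L →+* M) (D : L) (D' : M) (h : φ D = D') :
    bF p φ D D' h (XF p D) = XF p D' := by
  unfold XF
  rw [bF_of, map_X]

theorem bF_alg {M : Type} [Field M] (φ : L →+* M) (D : L) (D' : M) (h : φ D = D') (a : L) :
    bF p φ D D' h (algebraMap L (RF p D) a) = algebraMap M (RF p D') (φ a) := by
  change bF p φ D D' h (AdjoinRoot.of (fF p D) (C a)) = AdjoinRoot.of (fF p D') (C (φ a))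
  rw [bF_of, map_C]

/-! ## The quotient curve `v^p = u (D - u)^r` -/

variable (r : ℕ)

/-- the monomials `X^a Y^b` with `b ≡ r a` modulo `p` -/
def mons (D : L) : Set (RF p D) := {z | ∃ a b : ℕ, b ≡ r * a [MOD p] ∧ z = XF p D ^ a * YF p D ^ b}

/-- the coordinate ring of the curve `C_r : v^p = u (D - u)^r` -/
noncomputable def BQ (D : L) : Subalgebra L (RF p D) := Algebra.adjoin L (mons p r D)

theorem mons_mem (D : L) {a b : ℕ} (h : b ≡ r * a [MOD p]) : XF p D ^ a * YF p D ^ b ∈ BQ p r D :=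
  Algebra.subset_adjoin ⟨a, b, h, rfl⟩

/-- the function `u = X^p` -/
noncomputable def uu (D : L) : BQ p r D := ⟨XF p D ^ p, by
  have h := mons_mem p r D (a := p) (b := 0) (by
    change 0 % p = (r * p) % p
    rw [Nat.zero_mod, Nat.mul_mod_left])
  rwa [pow_zero, mul_one] at h⟩

/-- the function `D - u = Y^p` -/
noncomputable def ww (D : L) : BQ p r D := ⟨YF p D ^ p, by
  have h := mons_mem p r D (a := 0) (b := p) (by
    change p % p = (r * 0) % p
    rw [Nat.mod_self, mul_zero, Nat.zero_mod])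
  rwa [pow_zero, one_mul] at h⟩

/-- the function `v = X Y^r` -/
noncomputable def vv (D : L) : BQ p r D := ⟨XF p D * YF p D ^ r, by
  have h := mons_mem p r D (a := 1) (b := r) (by rw [mul_one])
  rwa [pow_one] at h⟩

theorem uu_add_ww (D : L) : uu p r D + ww p r D = algebraMap L (BQ p r D) D :=
  Subtype.ext (fermat_eq p D)

theorem vv_pow (D : L) : vv p r D ^ p = uu p r D * ww p r D ^ r := by
  refine Subtype.ext ?_
  change (XF p D * YF p D ^ r) ^ p = XF p D ^ p * (YF p D ^ p) ^ r
  rw [mul_pow, ← pow_mul, ← pow_mul, mul_comm r p]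

theorem sF_mem (D ζ : L) (h : ζ ^ p = 1) (z : RF p D) (hz : z ∈ BQ p r D) : sF p D ζ h z ∈ BQ p r D := by
  unfold BQ at hz
  induction hz using Algebra.adjoin_induction with
  | mem x hx =>
    obtain ⟨a, b, hab, rfl⟩ := hx
    rw [map_mul, map_pow, map_pow, sF_XF, sF_YF, mul_pow, ← map_pow]
    have h1 : XF p D ^ a * (algebraMap L (RF p D) (ζ ^ b) * YF p D ^ b) =
        algebraMap L (RF p D) (ζ ^ b) * (XF p D ^ a * YF p D ^ b) := by ring
    rw [h1]
    exact (BQ p r D).mul_mem ((BQ p r D).algebraMap_mem _) (mons_mem p r D hab)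
  | algebraMap c =>
    have h1 : sF p D ζ h (algebraMap L (RF p D) c) = algebraMap L (RF p D) c := sF_of p D ζ h (C c)
    rw [h1]
    exact (BQ p r D).algebraMap_mem _
  | add x y _ _ hx hy => rw [map_add]; exact (BQ p r D).add_mem hx hy
  | mul x y _ _ hx hy => rw [map_mul]; exact (BQ p r D).mul_mem hx hy

theorem bF_mem {M : Type} [Field M] (φ : L →+* M) (D : L) (D' : M) (h : φ D = D') (z : RF p D)
    (hz : z ∈ BQ p r D) : bF p φ D D' h z ∈ BQ p r D' := by
  unfold BQ at hz
  induction hz using Algebra.adjoin_induction with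
  | mem x hx =>
    obtain ⟨a, b, hab, rfl⟩ := hx
    rw [map_mul, map_pow, map_pow, bF_XF, bF_YF]
    exact mons_mem p r D' hab
  | algebraMap c =>
    rw [bF_alg]
    exact (BQ p r D').algebraMap_mem _
  | add x y _ _ hx hy => rw [map_add]; exact (BQ p r D').add_mem hx hy
  | mul x y _ _ hx hy => rw [map_mul]; exact (BQ p r D').mul_mem hx hy

/-- the automorphism `Y ↦ ζ Y` of the quotient curve -/
noncomputable def sg (D ζ : L) (h : ζ ^ p = 1) : BQ p r D →+* BQ p r D :=
  RingHom.codRestrict (((sF p D ζ h : RF p D →ₐ[L[X]] RF p D) : RF p D →+* RF p D).comp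
    ((BQ p r D).val : BQ p r D →+* RF p D)) (BQ p r D) (fun z => sF_mem p r D ζ h z.1 z.2)

/-- the homomorphism of coordinate rings given by a homomorphism of fields -/
noncomputable def bc {M : Type} [Field M] (φ : L →+* M) (D : L) (D' : M) (h : φ D = D') : BQ p r D →+* BQ p r D' :=
  RingHom.codRestrict ((bF p φ D D' h).comp ((BQ p r D).val : BQ p r D →+* RF p D)) (BQ p r D')
    (fun z => bF_mem p r φ D D' h z.1 z.2)

/-- the automorphism `Y ↦ ζ^i Y` -/
noncomputable def sgi (D ζ : L) (h : ζ ^ p = 1) (i : ℕ) : BQ p r D →+* BQ p r D :=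
  sg p r D (ζ ^ i) (by rw [← pow_mul, mul_comm, pow_mul, h, one_pow])

theorem sg_val (D ζ : L) (h : ζ ^ p = 1) (z : BQ p r D) : (sg p r D ζ h z : RF p D) = sF p D ζ h z := rfl

theorem bc_val {M : Type} [Field M] (φ : L →+* M) (D : L) (D' : M) (h : φ D = D') (z : BQ p r D) :
    (bc p r φ D D' h z : RF p D') = bF p φ D D' h z := rfl

/-- the ideal of the point `T = P_0` (`u = 0`) -/
noncomputable def t1 (D : L) : Ideal (BQ p r D) :=
  (Ideal.span {XF p D}).comap ((BQ p r D).val : BQ p r D →+* RF p D)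

/-- the ideal of the point `P_D` (`u = D`) -/
noncomputable def t2 (D : L) : Ideal (BQ p r D) :=
  (Ideal.span {YF p D}).comap ((BQ p r D).val : BQ p r D →+* RF p D)

/-- the value of the function `u` at the ideal `I`: the norm of `u` from `BQ / I` to `L` -/
noncomputable def nm (D : L) (I : Ideal (BQ p r D)) : L :=
  Algebra.norm L (Ideal.Quotient.mk I (uu p r D))

/-- the value of the function `D - u` at the ideal `I` -/
noncomputable def nw (D : L) (I : Ideal (BQ p r D)) : L :=
  Algebra.norm L (Ideal.Quotient.mk I (ww p r D))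

/-- the ideals `I` and `J` belong to the same class -/
def Sim {B : Type} [CommRing B] (I J : Ideal B) : Prop :=
  ∃ a b : B, a ≠ 0 ∧ b ≠ 0 ∧ Ideal.span {a} * I = Ideal.span {b} * J

/-- `a` is, up to `p`-th powers, the value of `u` at an ideal: `a` is the class of a point of the Jacobian over `L` -/
def Cj (D a : L) : Prop := a ≠ 0 ∧ ∃ I : Ideal (BQ p r D), I ≠ ⊥ ∧ ∃ s : L, s ≠ 0 ∧ nm p r D I = a * s ^ p

end

end Pool.Agent.Q7.CF
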