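import Pool.Agent.Q285.CF.FIN
import Pool.Agent.Q7.CF.Def2

/-!
# Project CF (helper7): the form of the results with class groups
-/

set_option autoImplicit false

namespace Pool.Agent.Q7.CF

open Polynomial NumberField
open scoped nonZeroDivisors

/-- every element of the class group is the product of a power of an element of order dividing `p` and of a `p`-th power -/
theorem class_form (hD : S_DED) (hN : S_NMM) (p r : ℕ) [Fact p.Prime] [Ok p r] (F : Type) [Field F] [NumberField F]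
    (D : F) (hD0 : D ≠ 0) (h : TrivF p r D) :
    ∃ T : ClassGroup (BQ p r D), T ^ p = 1 ∧ ∀ c : ClassGroup (BQ p r D), ∃ (i : ℕ) (d : ClassGroup (BQ p r D)),
      c = T ^ i * d ^ p := by
  haveI := (hD p r F D hD0).1
  obtain ⟨-, -, -, -, -, -, -, -, ht1, -, -, -, htp, -, -⟩ := hN p r F D hD0
  refine ⟨ClassGroup.mk0 ⟨t1 p r D, mem_nonZeroDivisors_of_ne_zero ht1⟩, ?_, fun c => ?_⟩
  · rw [← map_pow, ClassGroup.mk0_eq_one_iff]
    change (t1 p r D ^ p).IsPrincipal
    rw [htp]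
    exact ⟨_, rfl⟩
  · obtain ⟨⟨I, hI⟩, rfl⟩ := ClassGroup.mk0_surjective c
    have hI0 : I ≠ ⊥ := nonZeroDivisors.ne_zero hI
    obtain ⟨i, J, hJ0, x, y, hx, hy, h⟩ := h I hI0
    refine ⟨i, ClassGroup.mk0 ⟨J, mem_nonZeroDivisors_of_ne_zero hJ0⟩, ?_⟩
    rw [← map_pow, ← map_pow, ← map_mul, ClassGroup.mk0_eq_mk0_iff]
    exact ⟨x, y, hx, hy, h⟩

theorem fin_form (p : ℕ) [hp : Fact p.Prime] {A : Type} [CommGroup A] (h : ∃ T : A, T ^ p = 1 ∧ ∀ c : A,
    ∃ (i : ℕ) (d : A), c = T ^ i * d ^ p) (hfg : Group.FG A) : Finite A := by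
  obtain ⟨T, hT, h⟩ := h
  refine FINp.finite_of_pow p hp.out.two_le (fun a => ?_) hfg
  obtain ⟨i, d, hd⟩ := h a
  refine ⟨d, ?_⟩
  rw [hd, mul_pow, ← pow_mul, mul_comm i p, pow_mul, hT, one_pow, one_mul, ← pow_mul, pow_two]

/-- no element of order `p`: no element of order a power of `p` -/
theorem pow_form (p : ℕ) {A : Type} [AddCommGroup A] (h : ∀ x : A, p • x = 0 → x = 0) (n : ℕ) :
    ∀ x : A, p ^ n • x = 0 → x = 0 := by
  induction n with
  | zero => intro x hx; rwa [pow_zero, one_smul] at hx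
  | succ n ih =>
    intro x hx
    rw [pow_succ', mul_smul] at hx
    exact ih x (h _ hx)

end Pool.Agent.Q7.CF
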