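import Pool.Agent.Q7.CF.Def2
import Pool.Agent.Q7.CF.Fin1

/-!
# The Jacobians of the curves `v^p = u (D - u)^r`: points, action of automorphisms of fields, Tate-Shafarevich groups

The definitions of `Pool/Agent/Q7/CF/Def2.lean` once more, over a type `CR` for the coordinate ring with its own instances (so that they print shortly); they are equal by definition.
-/

set_option autoImplicit false

namespace Pool.Agent.Q7.CF

open Polynomial IsDedekindDomain
open Pool.Agent.Q7.CJ (cmap GalF)

noncomputable section

/-- The coordinate ring of the affine curve `v^p = u (D - u)^r` over the field `L`: the subring `BQ p r D` of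
`L[X, Y] / (X^p + Y^p - D)` generated by `L` and the monomials `X^a Y^b`, `b ≡ r a` modulo `p`. -/
def CR (p r : ℕ) {L : Type} [Field L] (D : L) : Type := BQ p r D

/-- the ring structure -/
instance CR.ring (p r : ℕ) {L : Type} [Field L] (D : L) : CommRing (CR p r D) :=
  Subalgebra.toCommRing (BQ p r D)

/-- it is an integral domain -/
instance CR.dom (p r : ℕ) [Fact p.Prime] [Ok p r] {L : Type} [Field L] (D : L) : IsDomain (CR p r D) :=
  instDom p r D

/-- the inclusion in `L[X, Y] / (X^p + Y^p - D)` -/
def CR.val {p r : ℕ} {L : Type} [Field L] {D : L} (z : CR p r D) : RF p D := Subtype.val z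

/-- the element of the coordinate ring given by an element of `L[X, Y] / (X^p + Y^p - D)` -/
def CR.mk {p r : ℕ} {L : Type} [Field L] {D : L} (z : RF p D) (h : z ∈ BQ p r D) : CR p r D := ⟨z, h⟩

/-- the map of coordinate rings given by a homomorphism of fields (acting on the coefficients) -/
def CR.base (p r : ℕ) {L M : Type} [Field L] [Field M] (φ : L →+* M) (D : L) (D' : M) (h : φ D = D') (z : CR p r D) :
    CR p r D' :=
  CR.mk (bF p φ D D' h z.val) (bF_mem p r φ D D' h z.1 z.2)

theorem CR.base_one (p r : ℕ) {L M : Type} [Field L] [Field M] (φ : L →+* M) (D : L) (D' : M) (h : φ D = D') :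
    CR.base p r φ D D' h 1 = 1 := (bc p r φ D D' h).map_one

theorem CR.base_mul (p r : ℕ) {L M : Type} [Field L] [Field M] (φ : L →+* M) (D : L) (D' : M) (h : φ D = D')
    (x y : CR p r D) : CR.base p r φ D D' h (x * y) = CR.base p r φ D D' h x * CR.base p r φ D D' h y :=
  (bc p r φ D D' h).map_mul x y

theorem CR.base_zero (p r : ℕ) {L M : Type} [Field L] [Field M] (φ : L →+* M) (D : L) (D' : M) (h : φ D = D') :
    CR.base p r φ D D' h 0 = 0 := (bc p r φ D D' h).map_zero

theorem CR.base_add (p r : ℕ) {L M : Type} [Field L] [Field M] (φ : L →+* M) (D : L) (D' : M) (h : φ D = D')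
    (x y : CR p r D) : CR.base p r φ D D' h (x + y) = CR.base p r φ D D' h x + CR.base p r φ D D' h y :=
  (bc p r φ D D' h).map_add x y

/-- it is a homomorphism of rings -/
def CR.map (p r : ℕ) {L M : Type} [Field L] [Field M] (φ : L →+* M) (D : L) (D' : M) (h : φ D = D') :
    CR p r D →+* CR p r D' where
  toFun := CR.base p r φ D D' h
  map_one' := CR.base_one p r φ D D' h
  map_mul' := CR.base_mul p r φ D D' h
  map_zero' := CR.base_zero p r φ D D' h
  map_add' := CR.base_add p r φ D D' h

theorem CR.map_injective (p r : ℕ) [Fact p.Prime] {L M : Type} [Field L] [Field M] (φ : L →+* M) (D : L) (D' : M)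
    (h : φ D = D') : Function.Injective (CR.map p r φ D D' h) :=
  bc_injective p r φ D D' h

/-- the map of the class groups given by an injective homomorphism of integral domains: extension of ideals -/
def classExt {R S : Type} [CommRing R] [IsDomain R] [CommRing S] [IsDomain S] (f : R →+* S) (hf : Function.Injective f)
    (c : ClassGroup R) : ClassGroup S :=
  cmap f hf c

/-- The group of the points of the Jacobian of `v^p = u (D - u)^r` over the extension `L` of `F`: the class group of the
coordinate ring over `L` (the curve has one point at infinity, which is rational), written additively. -/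
def Jac (p r : ℕ) {F : Type} [Field F] (D : F) [Fact p.Prime] [Ok p r] (L : Type) [Field L] [Algebra F L] : Type :=
  ClassGroup (CR p r (algebraMap F L D))

variable (p r : ℕ) [Fact p.Prime] [Ok p r] {F : Type} [Field F] (D : F)

/-- the group law -/
instance Jac.group (L : Type) [Field L] [Algebra F L] : AddCommGroup (Jac p r D L) :=
  Additive.addCommGroup (α := ClassGroup (CR p r (algebraMap F L D)))

/-- the map of the points given by a homomorphism of fields: extension of ideals -/
def Jac.push {L M : Type} [Field L] [Algebra F L] [Field M] [Algebra F M] (φ : L →ₐ[F] M) (P : Jac p r D L) : Jac p r D M :=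
  classExt (CR.map p r (φ : L →+* M) (algebraMap F L D) (algebraMap F M D) (φ.commutes D))
    (CR.map_injective p r _ _ _ _) P

theorem Jac.push_zero {L M : Type} [Field L] [Algebra F L] [Field M] [Algebra F M] (φ : L →ₐ[F] M) :
    Jac.push p r D φ 0 = 0 := (act p r D φ).map_zero

theorem Jac.push_add {L M : Type} [Field L] [Algebra F L] [Field M] [Algebra F M] (φ : L →ₐ[F] M) (P Q : Jac p r D L) :
    Jac.push p r D φ (P + Q) = Jac.push p r D φ P + Jac.push p r D φ Q := (act p r D φ).map_add P Q

/-- functions on the absolute Galois group with values in the points over the algebraic closure -/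
def Coc : Type := GalF F → Jac p r D (AlgebraicClosure F)

instance Coc.group : AddCommGroup (Coc p r D) :=
  @Pi.addCommGroup (GalF F) (fun _ => Jac p r D (AlgebraicClosure F)) (fun _ => Jac.group p r D _)

/-- `f` is a continuous cocycle: it is locally constant, `f (σ τ) = f σ + σ (f τ)` -/
def Cocycle (f : Coc p r D) : Prop :=
  IsLocallyConstant f ∧ ∀ σ τ : GalF F, f (σ * τ) = f σ + Jac.push p r D (σ : AlgebraicClosure F →ₐ[F] AlgebraicClosure F) (f τ)

/-- `f` is a coboundary: `f σ = σ P - P` -/
def Coboundary (f : Coc p r D) : Prop :=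
  ∃ P : Jac p r D (AlgebraicClosure F), ∀ σ : GalF F,
    f σ = Jac.push p r D (σ : AlgebraicClosure F →ₐ[F] AlgebraicClosure F) P - P

/-- for every embedding `ι` of the algebraic closures the restriction of `f` to the absolute Galois group of the extension `K` of `F` is a
coboundary -/
def LocallyTrivial (K : Type) [Field K] [Algebra F K] (f : Coc p r D) : Prop :=
  ∀ ι : AlgebraicClosure F →ₐ[F] AlgebraicClosure K, ∃ P : Jac p r D (AlgebraicClosure K),
    ∀ (τ : GalF K) (σ : GalF F), (∀ x, τ (ι x) = ι (σ x)) →
      Jac.push p r D ι (f σ) = Jac.push p r D ((τ : AlgebraicClosure K →ₐ[K] AlgebraicClosure K).restrictScalars F) P - P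

theorem Coboundary.zero : Coboundary p r D 0 := (cob p r D).zero_mem'

theorem Coboundary.add {f g : Coc p r D} (hf : Coboundary p r D f) (hg : Coboundary p r D g) : Coboundary p r D (f + g) :=
  (cob p r D).add_mem' hf hg

theorem Coboundary.neg {f : Coc p r D} (hf : Coboundary p r D f) : Coboundary p r D (-f) := (cob p r D).neg_mem' hf

/-- the group of the coboundaries -/
def coboundaries : AddSubgroup (Coc p r D) where
  carrier := {f | Coboundary p r D f}
  zero_mem' := Coboundary.zero p r D
  add_mem' := Coboundary.add p r D
  neg_mem' := Coboundary.neg p r D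

section NF

variable [NumberField F]

/-- a continuous cocycle which is a coboundary over the completions at all finite and infinite places of `F` -/
def ShaCocycle (f : Coc p r D) : Prop :=
  Cocycle p r D f ∧
  (∀ v : HeightOneSpectrum (NumberField.RingOfIntegers F), LocallyTrivial p r D (v.adicCompletion F) f) ∧
  ∀ v : NumberField.InfinitePlace F, LocallyTrivial p r D v.Completion f

theorem ShaCocycle.zero : ShaCocycle p r D 0 := (shaCoc p r D).zero_mem'

theorem ShaCocycle.add {f g : Coc p r D} (hf : ShaCocycle p r D f) (hg : ShaCocycle p r D g) : ShaCocycle p r D (f + g) :=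
  (shaCoc p r D).add_mem' hf hg

theorem ShaCocycle.neg {f : Coc p r D} (hf : ShaCocycle p r D f) : ShaCocycle p r D (-f) := (shaCoc p r D).neg_mem' hf

/-- the group of these cocycles -/
def shaCocycles : AddSubgroup (Coc p r D) where
  carrier := {f | ShaCocycle p r D f}
  zero_mem' := ShaCocycle.zero p r D
  add_mem' := ShaCocycle.add p r D
  neg_mem' := ShaCocycle.neg p r D

/-- the Tate-Shafarevich group of the Jacobian over `F` -/
def ShaJ : Type := shaCocycles p r D ⧸ (coboundaries p r D).addSubgroupOf (shaCocycles p r D)

/-- its group law -/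
instance ShaJ.group : AddCommGroup (ShaJ p r D) :=
  @QuotientAddGroup.Quotient.addCommGroup (shaCocycles p r D) _ ((coboundaries p r D).addSubgroupOf (shaCocycles p r D))

end NF

end

/-- The coordinate ring `L[X, Y] / (X^p + Y^p - D)` of the affine Fermat curve `X^p + Y^p = D` over the field `L`. -/
def FR (p : ℕ) {L : Type} [Field L] (D : L) : Type := RF p D

noncomputable section

/-- the ring structure -/
instance FR.ring (p : ℕ) {L : Type} [Field L] (D : L) : CommRing (FR p D) :=
  AdjoinRoot.instCommRing (fF p D)

end

/-! ## Transfer -/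

theorem sha_of {p r : ℕ} [Fact p.Prime] [Ok p r] {F : Type} [Field F] [NumberField F] {D : F}
    (h : ∀ x : Sha p r D, p • x = 0 → x = 0) (n : ℕ) : ∀ x : ShaJ p r D, p ^ n • x = 0 → x = 0 :=
  pow_form p (A := Sha p r D) h n

end Pool.Agent.Q7.CF
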